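import Pool.Agent.Run7.h424.DC.Co

/-!
# The complete `2`-descent on `y² = x (x + 9 n) (x + 25 n)`, both directions
-/

set_option autoImplicit false

attribute [-instance] DivisionRing.toRatAlgebra

open NumberField IsDedekindDomain

namespace Run7.h424.DC

open Pool.Agent.Y698.SG.Cv (WF)
open Pool.Agent.TH841.NF.D (Sha)
open Pool.Agent.N969.P15 (Qc)

/-- finitely many points if the rank is zero -/
theorem fin_of_rank {W : WeierstrassCurve ℚ} {A B : ℚ} (hT : Pool.Agent.Y682.IsT W A B)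
    (h : Module.finrank ℤ (Pool.Agent.Y682.MP W) = 0) : Finite W.toAffine.Point := by
  have h1 : Module.Finite ℤ (Pool.Agent.Y682.MP W) := Pool.Agent.Y682.fg_MP hT
  have h2 : Module.IsTorsion ℤ (Pool.Agent.Y682.MP W) := Module.finrank_eq_zero_iff_isTorsion.1 h
  have h3 : Finite (Pool.Agent.Y682.MP W) := Module.finite_of_fg_torsion (Pool.Agent.Y682.MP W) h2
  exact h3

/-- **complete `2`-descent on the twists `E_(-n)` of `X_0(15)`**, `n ≡ 23, 47 mod 60` squarefree:
there are finitely many rational points and no elements of `2`-power order in Sha if and only if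
only the trivial factorizations `n = b c` are solvable, i.e. the class group of `ℚ(√(-n))` has no
element of order four -/
theorem iffF {n : ℕ} (hn : Squarefree n) (h60 : n % 60 = 23 ∨ n % 60 = 47)
    {W : WeierstrassCurve ℚ} (hW : W = ⟨0, ((34 * (n : ℤ) : ℤ) : ℚ), 0,
      ((225 * (n : ℤ) ^ 2 : ℤ) : ℚ), 0⟩) :
    (Finite W.toAffine.Point ∧ ∀ (k : ℕ) (x : Sha W), 2 ^ k • x = 0 → x = 0) ↔ Qc n := by
  have hW2 : W = WF ℚ (34 * n) (225 * n ^ 2) := by
    rw [hW]
    unfold WF Pool.Agent.Y668.Wt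
    simp
  constructor
  · rintro ⟨hf, hs⟩
    rw [hW2] at hf hs
    refine convF hn h60 hf fun x hx => hs 1 x ?_
    rw [pow_one, two_smul, hx]
  · intro hQ
    have hn0 : (n : ℚ) ≠ 0 := by exact_mod_cast hn.ne_zero
    have hT : Pool.Agent.Y682.IsT W ((34 * (n : ℤ) : ℤ) : ℚ) ((225 * (n : ℤ) ^ 2 : ℤ) : ℚ) := by
      rw [hW]
      refine ⟨rfl, rfl, rfl, rfl, rfl, ?_, ?_⟩
      · push_cast
        exact mul_ne_zero (by norm_num) (pow_ne_zero 2 hn0)
      · have e : (((34 * (n : ℤ) : ℤ) : ℚ)) ^ 2 - 4 * ((225 * (n : ℤ) ^ 2 : ℤ) : ℚ) =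
            256 * (n : ℚ) ^ 2 := by
          push_cast
          ring
        rw [e]
        exact mul_ne_zero (by norm_num) (pow_ne_zero 2 hn0)
    obtain ⟨h1, h2⟩ := shaF hn h60 hQ hT
    exact ⟨fin_of_rank hT h1, h2⟩

end Run7.h424.DC
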