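import Mathlib
import Pool.Agent.Run7.h843.R2

/-!
# The local images of `y² = x (x + 9 n) (x + 25 n)` and of its isogenous curve: odd primes
-/

set_option autoImplicit false
set_option linter.unusedSectionVars false

attribute [-instance] DivisionRing.toRatAlgebra

namespace Run7.h424.DC

open Pool.Agent.Y682 (S1 S2)
open Run7.h843.Sha Run7.h843.Desc Run7.h843.R

section

variable {L : Type} [Field L] (w : Valuation L (WithZero (Multiplicative ℤ)))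

/-- a place at which the two roots have different valuations -/
lemma beta_sq (hens : ∀ t : L, w t < 1 → ∃ y : L, y ^ 2 = 1 + t) {a b m y : L}
    {e : WithZero (Multiplicative ℤ)} (ha : w a = e ^ 2) (ha1 : w a ≤ 1) (hb : w b = 1)
    (hodd : ∀ g : WithZero (Multiplicative ℤ), g ^ 2 ≠ w m)
    (h : y ^ 2 = m * ((m + a) * (m + b))) : ∃ c : L, b = c ^ 2 := by
  have hwm : w m ≠ 0 := by
    intro h0
    exact hodd 0 (by rw [h0, zero_pow two_ne_zero])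
  have hm : m ≠ 0 := (Valuation.ne_zero_iff _).1 hwm
  have hb0 : b ≠ 0 := by
    rw [← Valuation.ne_zero_iff w, hb]
    exact one_ne_zero
  have hy := congrArg w h
  rw [map_pow, map_mul, map_mul] at hy
  have hne : ∀ t r : L, r ^ 2 = 1 + t → w t < 1 → r ≠ 0 := by
    rintro t r hr h1 rfl
    have h2 : t = -1 := by linear_combination -hr
    rw [h2, Valuation.map_neg, map_one] at h1
    exact lt_irrefl _ h1
  rcases lt_trichotomy (w m) 1 with h1 | h1 | h1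
  · have h2 : w (m + b) = 1 := by
      rw [Valuation.map_add_eq_of_lt_right, hb]
      rw [hb]
      exact h1
    rcases lt_trichotomy (w m) (w a) with h3 | h3 | h3
    · exfalso
      rw [Valuation.map_add_eq_of_lt_right _ h3, h2, mul_one, ha] at hy
      have he : e ≠ 0 := by
        rintro rfl
        rw [ha, zero_pow two_ne_zero] at h3
        exact not_lt_zero h3
      apply hodd (w y / e)
      rw [div_pow, hy]
      field_simp
    · exact absurd (h3.trans ha).symm (hodd e)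
    · have ht1 : w (a / m) < 1 := by
        rw [map_div₀, div_lt_iff₀ (zero_lt_iff.2 hwm), one_mul]
        exact h3
      have ht2 : w (m / b) < 1 := by
        rw [map_div₀, hb, div_one]
        exact h1
      obtain ⟨r1, hr1⟩ := hens _ ht1
      obtain ⟨r2, hr2⟩ := hens _ ht2
      have h10 := hne _ _ hr1 ht1
      have h20 := hne _ _ hr2 ht2
      refine ⟨y / (m * r1 * r2), ?_⟩
      have e1 : (m * r1 * r2) ^ 2 = m ^ 2 * (1 + a / m) * (1 + m / b) := by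
        rw [mul_pow, mul_pow, hr1, hr2]
      have e2 : m ^ 2 * (1 + a / m) * (1 + m / b) * b = y ^ 2 := by
        rw [h]
        field_simp
        ring
      rw [div_pow, eq_div_iff (pow_ne_zero 2 (mul_ne_zero (mul_ne_zero hm h10) h20)), e1, ← e2]
      ring
  · exact absurd (by rw [h1, one_pow]) (hodd 1)
  · exfalso
    have h2 : w (m + b) = w m := Valuation.map_add_eq_of_lt_left _ (by rw [hb]; exact h1)
    have h3 : w (m + a) = w m := Valuation.map_add_eq_of_lt_left _ (lt_of_le_of_lt ha1 h1)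
    rw [h2, h3] at hy
    apply hodd (w y / w m)
    rw [div_pow, hy]
    field_simp

end

section

variable {p : ℕ} [hp : Fact p.Prime]

/-- the primes `3` and `5` -/
theorem out35 (h2 : p ≠ 2) {α α' β X : ℤ} (hα : α = (p : ℤ) ^ 2 * α') (hα' : ¬ (p : ℤ) ∣ α')
    (hβ : ¬ (p : ℤ) ∣ β) (hns : ¬ IsSquare (β : ZMod p)) (hX : X ≠ 0)
    (hC : C1 ℚ_[p] ((α + β : ℤ) : ℚ) ((α * β : ℤ) : ℚ) (X : ℚ)) : vv p X = 0 := by
  obtain ⟨z, x, hz, hzm, hx⟩ := hC
  rw [Rat.cast_intCast, Rat.cast_intCast] at hx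
  rw [Rat.cast_intCast] at hzm
  have hwz : wv p z ≠ 0 := (Valuation.ne_zero_iff _).2 hz
  have hwa : wv p (α : ℚ_[p]) = (WithZero.exp (-1 : ℤ)) ^ 2 := by
    rw [hα, Int.cast_mul, Int.cast_pow, Int.cast_natCast, map_mul, map_pow, w_self, w_one hα',
      mul_one]
  have hwb : wv p (β : ℚ_[p]) = 1 := w_one hβ
  have fin : (∃ g, wv p x = g ^ 2) → vv p X = 0 := by
    rintro ⟨g, hg⟩
    refine vv_of_even (p := p) hX (g := g / wv p z) ?_
    rw [div_pow, ← hg, ← hzm, map_mul, map_pow]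
    field_simp
  rcases hx with hx | hx | ⟨hx0, y, hy⟩
  · exact fin ⟨1, by rw [hx, map_one, one_pow]⟩
  · exact fin ⟨WithZero.exp (-1 : ℤ), by rw [hx, Int.cast_mul, map_mul, hwa, hwb, mul_one]⟩
  · by_cases hodd : ∃ g, wv p x = g ^ 2
    · exact fin hodd
    · exfalso
      push Not at hodd
      obtain ⟨c, hc⟩ := beta_sq (wv p) (hens h2) (m := x) (y := y) hwa (w_int_le α) hwb
        (fun g hg => hodd g hg.symm) (by
          rw [hy]
          push_cast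
          ring)
      exact hns (SqP.isSquare hβ ⟨c, by rw [Rat.cast_intCast]; exact hc⟩)

/-- the primes dividing `n` -/
theorem inG {n : ℕ} (h2 : p ≠ 2) (hn : Squarefree n) (hpn : p ∈ n.primeFactors) {ε r r' : ℤ}
    (hε : ε = 1 ∨ ε = -1) (hr : ¬ (p : ℤ) ∣ r) (hr' : ¬ (p : ℤ) ∣ r') {X : ℤ}
    (h : C1 ℚ_[p] ((-ε * (r ^ 2 + r' ^ 2) * n : ℤ) : ℚ) ((r ^ 2 * r' ^ 2 * n ^ 2 : ℤ) : ℚ) (X : ℚ)) :
    SqP p (X : ℚ) ∨ SqP p ((ε * n * X : ℤ) : ℚ) := by
  obtain ⟨z, x, hz, hzm, hx⟩ := h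
  rw [Rat.cast_intCast, Rat.cast_intCast] at hx
  rw [Rat.cast_intCast] at hzm
  have hpi : Prime (p : ℤ) := Nat.prime_iff_prime_int.1 hp.out
  have hwm := wv_m hn hpn
  have hm0 : ((n : ℤ) : ℚ_[p]) ≠ 0 := by
    rw [← (Valuation.ne_zero_iff (wv p)), hwm]
    exact WithZero.exp_ne_zero
  have hεd : ¬ (p : ℤ) ∣ ε := by
    intro h
    have h1 : (p : ℤ) ∣ 1 := by
      rcases hε with h3 | h3
      · rwa [h3] at h
      · rwa [h3, dvd_neg] at h
    exact hpi.not_dvd_one h1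
  have hd1 : ¬ (p : ℤ) ∣ ε * r ^ 2 := fun h => (hpi.dvd_or_dvd h).elim hεd
    fun h => hr (hpi.dvd_of_dvd_pow h)
  have hd2 : ¬ (p : ℤ) ∣ ε * r' ^ 2 := fun h => (hpi.dvd_or_dvd h).elim hεd
    fun h => hr' (hpi.dvd_of_dvd_pow h)
  have hd3 : ¬ (p : ℤ) ∣ r ^ 2 * r' ^ 2 := fun h => (hpi.dvd_or_dvd h).elim
    (fun h => hr (hpi.dvd_of_dvd_pow h)) fun h => hr' (hpi.dvd_of_dvd_pow h)
  have hβ1 := w_one hd3
  have hβ0 : ((r ^ 2 * r' ^ 2 : ℤ) : ℚ_[p]) ≠ 0 := by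
    rw [← (Valuation.ne_zero_iff (wv p)), hβ1]
    exact one_ne_zero
  have hx' : S1 (((-ε * (r ^ 2 + r' ^ 2) : ℤ) : ℚ_[p]) * ((n : ℤ) : ℚ_[p]))
      (((r ^ 2 * r' ^ 2 : ℤ) : ℚ_[p]) * ((n : ℤ) : ℚ_[p]) ^ 2) x := by
    have e1 : ((-ε * (r ^ 2 + r' ^ 2) * n : ℤ) : ℚ_[p]) =
        ((-ε * (r ^ 2 + r' ^ 2) : ℤ) : ℚ_[p]) * ((n : ℤ) : ℚ_[p]) := by push_cast; ring
    have e2 : ((r ^ 2 * r' ^ 2 * n ^ 2 : ℤ) : ℚ_[p]) =
        ((r ^ 2 * r' ^ 2 : ℤ) : ℚ_[p]) * ((n : ℤ) : ℚ_[p]) ^ 2 := by push_cast; ring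
    rw [← e1, ← e2]
    exact hx
  have hεq : (ε : ℚ_[p]) ^ 2 = 1 := by
    rcases hε with h | h <;> rw [h] <;> push_cast <;> ring
  have fin : (∃ c : ℚ_[p], x = c ^ 2 ∨ x = ((ε * n : ℤ) : ℚ_[p]) * c ^ 2) →
      SqP p (X : ℚ) ∨ SqP p ((ε * n * X : ℤ) : ℚ) := by
    rintro ⟨c, hc⟩
    exact ends_c (p := p) (D := ε * n) hz hzm hc
  rcases cls3 (wv p) (hens h2) hm0 (w_int_le _) hβ1 hβ0 (fun g hg => exp_odd (n := -1)
    (by norm_num) (hg.trans hwm)) hx' with ⟨c, -, hc⟩ | ⟨c, -, hc⟩ | ⟨ξ, hxξ, hξ, hlt⟩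
  · exact fin ⟨c, Or.inl hc⟩
  · refine fin ⟨(r : ℚ_[p]) * r' * c, Or.inl ?_⟩
    rw [hc]
    push_cast
    ring
  · obtain ⟨c, -, hc⟩ := near (wv p) (hens h2) (α := ((-ε * (r ^ 2 + r' ^ 2) : ℤ) : ℚ_[p]))
      (β := ((r ^ 2 * r' ^ 2 : ℤ) : ℚ_[p])) (ρ := ((ε * r ^ 2 : ℤ) : ℚ_[p]))
      (ρ' := ((ε * r' ^ 2 : ℤ) : ℚ_[p])) (ξ := ξ) (by push_cast; ring)
      (by push_cast; linear_combination (r : ℚ_[p]) ^ 2 * (r' : ℚ_[p]) ^ 2 * hεq)
      (w_one hd1) (w_one hd2) hξ hlt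
    rcases hc with hc | hc
    · refine fin ⟨r * c, Or.inr ?_⟩
      rw [hxξ, hc]
      push_cast
      ring
    · refine fin ⟨r' * c, Or.inr ?_⟩
      rw [hxξ, hc]
      push_cast
      ring

/-- an integer which is a `p`-adic square is divisible by `p²` if it is divisible by `p` -/
theorem SqP_even {A : ℤ} (hA : ¬ (p : ℤ) ∣ A) : ¬ SqP p ((p * A : ℤ) : ℚ) := by
  rintro ⟨c, hc⟩
  rw [Rat.cast_intCast, Int.cast_mul, Int.cast_natCast] at hc
  have h := congrArg (wv p) hc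
  rw [map_mul, w_self, w_one hA, mul_one, map_pow] at h
  exact exp_odd (n := -1) (by norm_num) h.symm

theorem SqP_div {A B : ℤ} (hB : B ≠ 0) (h : SqP p ((B ^ 2 * A : ℤ) : ℚ)) : SqP p (A : ℚ) := by
  obtain ⟨c, hc⟩ := h
  have hB' : (B : ℚ_[p]) ≠ 0 := by exact_mod_cast hB
  refine ⟨c / B, ?_⟩
  rw [Rat.cast_intCast] at hc ⊢
  rw [div_pow, ← hc]
  push_cast
  field_simp

end

end Run7.h424.DC
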