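import Mathlib

/-!
# A system of linear equations modulo two and the transposed system
-/

set_option autoImplicit false

namespace Run7.h424.DC

open Finset

/-- the matrix of the system -/
def MM (P : Finset ℕ) (f : ℕ → ℕ → ZMod 2) : Matrix P P (ZMod 2) :=
  fun p q => f p q + if p = q then ∑ r ∈ P, f p r else 0

theorem MM_mulVec (P : Finset ℕ) (f : ℕ → ℕ → ZMod 2) (v : P → ZMod 2) (p : P) :
    (MM P f).mulVec v p = ∑ q : P, f p q * (v q + v p) := by
  unfold MM Matrix.mulVec dotProduct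
  have h : ∀ q : P, (f p q + if p = q then ∑ r ∈ P, f p r else 0) * v q =
      f p q * v q + if p = q then (∑ r ∈ P, f p r) * v p else 0 := by
    intro q
    by_cases hq : p = q
    · rw [if_pos hq, if_pos hq, hq]; ring
    · rw [if_neg hq, if_neg hq]; ring
  rw [sum_congr rfl fun q _ => h q, sum_add_distrib, sum_ite_eq, if_pos (mem_univ _),
    ← sum_coe_sort P (fun r => f p r), sum_mul, ← sum_add_distrib]
  exact sum_congr rfl fun q _ => by ring

theorem MM_tr (P : Finset ℕ) (f : ℕ → ℕ → ZMod 2)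
    (h : ∀ p ∈ P, ∑ q ∈ P, f p q = ∑ q ∈ P, f q p) (v : P → ZMod 2) (p : P) :
    (MM P f).transpose.mulVec v p = ∑ q : P, f q p * (v q + v p) := by
  have e : (MM P f).transpose = MM P fun p q => f q p := by
    funext p q
    show MM P f q p = _
    unfold MM
    by_cases hq : p = q
    · rw [if_pos hq.symm, if_pos hq, ← hq, h p p.2]
    · rw [if_neg (Ne.symm hq), if_neg hq]
  rw [e, MM_mulVec]

theorem one_ker (P : Finset ℕ) (f : ℕ → ℕ → ZMod 2) (p : P) :
    ∑ q : P, f p q * ((1 : P → ZMod 2) q + (1 : P → ZMod 2) p) = 0 := by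
  refine sum_eq_zero fun q _ => ?_
  show f p q * (1 + 1) = 0
  have : (1 : ZMod 2) + 1 = 0 := by decide
  rw [this, mul_zero]

theorem ker_le_one (P : Finset ℕ) (f : ℕ → ℕ → ZMod 2)
    (K : ∀ v : P → ZMod 2, (MM P f).mulVec v = 0 → ∀ p q, v p = v q) :
    Module.finrank (ZMod 2) (LinearMap.ker (MM P f).mulVecLin) ≤ 1 := by
  have h1 : (1 : P → ZMod 2) ∈ LinearMap.ker (MM P f).mulVecLin := by
    rw [LinearMap.mem_ker, Matrix.mulVecLin_apply]
    funext p
    rw [MM_mulVec]
    exact one_ker P f p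
  refine finrank_le_one ⟨1, h1⟩ ?_
  rintro ⟨w, hw⟩
  rw [LinearMap.mem_ker, Matrix.mulVecLin_apply] at hw
  rcases isEmpty_or_nonempty P with hP | ⟨⟨p0⟩⟩
  · refine ⟨0, Subtype.ext ?_⟩
    funext p
    exact (hP.false p).elim
  · refine ⟨w p0, Subtype.ext ?_⟩
    funext p
    show w p0 * 1 = w p
    rw [mul_one]
    exact K w hw p0 p

/-- **the transposed system has the same number of solutions** -/
theorem dual {P : Finset ℕ} (f : ℕ → ℕ → ZMod 2)
    (h : ∀ p ∈ P, ∑ q ∈ P, f p q = ∑ q ∈ P, f q p)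
    (K : ∀ x : ℕ → ZMod 2, (∀ p ∈ P, ∑ q ∈ P, f p q * (x q + x p) = 0) →
      ∀ p ∈ P, ∀ q ∈ P, x p = x q) (x : ℕ → ZMod 2)
    (hx : ∀ p ∈ P, ∑ q ∈ P, f q p * (x q + x p) = 0) : ∀ p ∈ P, ∀ q ∈ P, x p = x q := by
  classical
  intro p hp q hq
  have hK : ∀ v : P → ZMod 2, (MM P f).mulVec v = 0 → ∀ p q, v p = v q := by
    intro v hv p q
    let y : ℕ → ZMod 2 := fun q => if h : q ∈ P then v ⟨q, h⟩ else 0
    have hy : ∀ q : P, y q = v q := fun q => dif_pos q.2
    have h1 := K y (by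
      intro p hp
      have h2 := congrFun hv ⟨p, hp⟩
      rw [MM_mulVec, Pi.zero_apply] at h2
      rw [← sum_coe_sort P (fun q => f p q * (y q + y p)), ← h2]
      exact sum_congr rfl fun q _ => by rw [hy q, hy ⟨p, hp⟩]) p p.2 q q.2
    rwa [hy, hy] at h1
  have h1 := ker_le_one P f hK
  have h2 := LinearMap.finrank_range_add_finrank_ker (MM P f).mulVecLin
  have h3 := LinearMap.finrank_range_add_finrank_ker (MM P f).transpose.mulVecLin
  have h4 : Module.finrank (ZMod 2) (LinearMap.range (MM P f).transpose.mulVecLin) =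
      Module.finrank (ZMod 2) (LinearMap.range (MM P f).mulVecLin) := (MM P f).rank_transpose
  have hone : (1 : P → ZMod 2) ∈ LinearMap.ker (MM P f).transpose.mulVecLin := by
    rw [LinearMap.mem_ker, Matrix.mulVecLin_apply]
    funext p
    rw [MM_tr P f h]
    exact one_ker P (fun p q => f q p) p
  have hne : (⟨1, hone⟩ : LinearMap.ker (MM P f).transpose.mulVecLin) ≠ 0 := by
    intro h5
    have h6 := congrFun (congrArg Subtype.val h5) ⟨p, hp⟩
    exact one_ne_zero (α := ZMod 2) h6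
  have h5 : Module.finrank (ZMod 2) (LinearMap.ker (MM P f).transpose.mulVecLin) ≤ 1 := by omega
  have h6 : Module.finrank (ZMod 2) (LinearMap.ker (MM P f).transpose.mulVecLin) = 1 := by
    have : 0 < Module.finrank (ZMod 2) (LinearMap.ker (MM P f).transpose.mulVecLin) :=
      Module.finrank_pos_iff_exists_ne_zero.2 ⟨_, hne⟩
    omega
  have hxm : (fun q : P => x q) ∈ LinearMap.ker (MM P f).transpose.mulVecLin := by
    rw [LinearMap.mem_ker, Matrix.mulVecLin_apply]
    funext p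
    rw [MM_tr P f h, Pi.zero_apply, ← hx p p.2, ← sum_coe_sort P (fun q => f q p * (x q + x p))]
  obtain ⟨c, hc⟩ := exists_smul_eq_of_finrank_eq_one h6 hne ⟨_, hxm⟩
  have h7 := congrFun (congrArg Subtype.val hc) ⟨p, hp⟩
  have h8 := congrFun (congrArg Subtype.val hc) ⟨q, hq⟩
  have h9 : c * 1 = x p := h7
  have h10 : c * 1 = x q := h8
  rw [← h9, ← h10]

end Run7.h424.DC
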