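import Mathlib
import Pool.Agent.Run7.h843.R6
import Pool.Agent.Run7.h424.DC.Mx
import Pool.Agent.Run7.h424.DC.Lo
import Pool.Agent.N969.P15.Defs

/-!
# The elementary criterion and the linear systems
-/

set_option autoImplicit false
set_option linter.unusedSectionVars false

attribute [-instance] DivisionRing.toRatAlgebra

namespace Run7.h424.DC

open Finset
open Pool.Agent.Y703.CQ (nr)
open Run7.h843.Sha Run7.h843.Desc Run7.h843.R
open Pool.Agent.N969.P15 (Qc)

theorem ch_zero_iff {p : ℕ} {A : ℤ} : ch p A = 0 ↔ IsSquare (A : ZMod p) := by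
  classical
  unfold ch
  split_ifs with h
  · exact ⟨fun _ => h, fun _ => rfl⟩
  · exact ⟨fun h1 => absurd h1 (by decide), fun h1 => absurd h1 h⟩

theorem mod4 {T : Finset ℕ} (h : ∀ p ∈ T, p % 2 = 1) :
    ((∏ p ∈ T, p) % 4 = 1 ∧ ∑ p ∈ T, e3 p = 0) ∨ ((∏ p ∈ T, p) % 4 = 3 ∧ ∑ p ∈ T, e3 p = 1) := by
  classical
  induction T using Finset.induction_on with
  | empty => exact Or.inl ⟨rfl, rfl⟩
  | insert a s has ih =>
    have h1 := ih fun p hp => h p (mem_insert_of_mem hp)
    have h2 := h a (mem_insert_self a s)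
    rw [prod_insert has, sum_insert has]
    have h3 : a % 4 = 1 ∨ a % 4 = 3 := by omega
    rcases h3 with h3 | h3
    · have e : e3 a = 0 := by unfold e3; rw [if_neg (by omega)]
      rw [e, zero_add]
      rcases h1 with ⟨h4, h5⟩ | ⟨h4, h5⟩
      · exact Or.inl ⟨by rw [Nat.mul_mod, h3, h4], h5⟩
      · exact Or.inr ⟨by rw [Nat.mul_mod, h3, h4], h5⟩
    · have e : e3 a = 1 := by unfold e3; rw [if_pos h3]
      rw [e]
      rcases h1 with ⟨h4, h5⟩ | ⟨h4, h5⟩
      · exact Or.inr ⟨by rw [Nat.mul_mod, h3, h4], by rw [h5, add_zero]⟩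
      · exact Or.inl ⟨by rw [Nat.mul_mod, h3, h4], by rw [h5]; decide⟩

theorem sum_rec {T : Finset ℕ} {p : ℕ} (hp : p.Prime) (hp2 : p ≠ 2)
    (hT : ∀ q ∈ T, q.Prime ∧ q ≠ 2) (hpT : p ∉ T) :
    ∑ q ∈ T, nr q p = ∑ q ∈ T, nr p q + (∑ q ∈ T, e3 q) * e3 p := by
  rw [sum_mul, ← sum_add_distrib]
  refine sum_congr rfl fun q hq => ?_
  have hne : p ≠ q := by
    rintro rfl
    exact hpT hq
  rw [← recip hp (hT q hq).1 hp2 (hT q hq).2 hne]
  ring

section

variable {n : ℕ}

theorem odd_pf (hn2 : n % 2 = 1) {p : ℕ} (hp : p ∈ n.primeFactors) : p.Prime ∧ p ≠ 2 ∧ p % 2 = 1 := by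
  have hpp := Nat.prime_of_mem_primeFactors hp
  have h2 : p ≠ 2 := by
    rintro rfl
    have := Nat.dvd_of_mem_primeFactors hp
    omega
  exact ⟨hpp, h2, hpp.eq_two_or_odd.resolve_left h2⟩

/-- the row sums are the column sums -/
theorem rowcol (hn : Squarefree n) (hn4 : n % 4 = 3) : ∀ p ∈ n.primeFactors,
    ∑ q ∈ n.primeFactors, nr p q = ∑ q ∈ n.primeFactors, nr q p := by
  intro p hp
  have hodd := fun q (hq : q ∈ n.primeFactors) => odd_pf (n := n) (by omega) hq
  have h1 := sum_rec (T := n.primeFactors.erase p) (hodd p hp).1 (hodd p hp).2.1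
    (fun q hq => ⟨(hodd q (mem_of_mem_erase hq)).1, (hodd q (mem_of_mem_erase hq)).2.1⟩)
    (notMem_erase p _)
  have h2 : ∑ q ∈ n.primeFactors, e3 q = 1 := by
    rcases mod4 (T := n.primeFactors) fun q hq => (hodd q hq).2.2 with h | h
    · rw [Nat.prod_primeFactors_of_squarefree hn] at h
      omega
    · exact h.2
  have h3 := add_sum_erase n.primeFactors (fun q => nr p q) hp
  have h4 := add_sum_erase n.primeFactors (fun q => nr q p) hp
  have h5 := add_sum_erase n.primeFactors e3 hp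
  simp only [nr_self, zero_add] at h3 h4
  rw [← h3, ← h4, h1]
  rw [h2] at h5
  have h6 : (∑ q ∈ n.primeFactors.erase p, e3 q) * e3 p = 0 := by
    have h7 : ∑ q ∈ n.primeFactors.erase p, e3 q = 1 + e3 p := by
      linear_combination h5 + (- e3 p) * (by decide : (2 : ZMod 2) = 0)
    rw [h7, add_mul, one_mul, e3_sq, add_self2]
  rw [h6, add_zero]

theorem jac_iff {p b : ℕ} [Fact p.Prime] (hpb : ¬ p ∣ b) :
    jacobiSym b p = 1 ↔ IsSquare (((b : ℤ) : ℤ) : ZMod p) := by
  rw [← jacobiSym.legendreSym.to_jacobiSym, legendreSym.eq_one_iff]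
  rw [cast_ne]
  intro h
  exact hpb (by exact_mod_cast h)

theorem ch_sqf {p b : ℕ} [Fact p.Prime] (h2 : p ≠ 2) (hb : Squarefree b) (hpb : ¬ p ∣ b) :
    ch p (b : ℤ) = ∑ q ∈ b.primeFactors, nr p q := by
  have h1 : ¬ (p : ℤ) ∣ (b : ℤ) := by exact_mod_cast hpb
  rw [ch_unit h2 h1, sg_pos (by exact_mod_cast Nat.pos_of_ne_zero hb.ne_zero), zero_mul, add_zero,
    lam_m hb]

/-- the first system has the trivial solutions only -/
theorem K_of (hn : Squarefree n) (hn2 : n % 2 = 1) (hQ : Qc n) (x : ℕ → ZMod 2)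
    (hx : ∀ p ∈ n.primeFactors, ∑ q ∈ n.primeFactors, nr p q * (x q + x p) = 0) :
    ∀ p ∈ n.primeFactors, ∀ q ∈ n.primeFactors, x p = x q := by
  classical
  have hodd := fun q (hq : q ∈ n.primeFactors) => odd_pf (n := n) hn2 hq
  set T := n.primeFactors.filter fun p => x p ≠ 0 with hT
  set T' := n.primeFactors.filter fun p => ¬ x p ≠ 0 with hT'
  set b := ∏ p ∈ T, p with hb
  set c := ∏ p ∈ T', p with hc
  have hTp : ∀ p ∈ T, p.Prime := fun p hp => Nat.prime_of_mem_primeFactors (mem_filter.1 hp).1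
  have hTp' : ∀ p ∈ T', p.Prime := fun p hp => Nat.prime_of_mem_primeFactors (mem_filter.1 hp).1
  have hbc : b * c = n := by
    rw [hb, hc, hT, hT', prod_filter_mul_prod_filter_not]
    exact Nat.prod_primeFactors_of_squarefree hn
  have hsq : Squarefree (b * c) := hbc.symm ▸ hn
  have hbs : Squarefree b := hsq.of_mul_left
  have hcs : Squarefree c := hsq.of_mul_right
  have hbp : b.primeFactors = T := Nat.primeFactors_prod hTp
  have hcp : c.primeFactors = T' := Nat.primeFactors_prod hTp'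
  have hdisj : Disjoint T T' := disjoint_filter_filter_not _ _ _
  have hun : n.primeFactors = T ∪ T' := (filter_union_filter_not_eq _ _).symm
  have hxT : ∀ p ∈ T, x p = 1 := by
    intro p hp
    rcases zmod2_cases (x p) with h | h
    · exact absurd h (mem_filter.1 hp).2
    · exact h
  have hxT' : ∀ p ∈ T', x p = 0 := by
    intro p hp
    exact not_not.1 (mem_filter.1 hp).2
  have h11 : (1 : ZMod 2) + 1 = 0 := by decide
  have h1 := hQ b c hbc (by
    intro p hp
    have hpp := Nat.prime_of_mem_primeFactors hp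
    have : Fact p.Prime := ⟨hpp⟩
    have hpT' : p ∈ T' := hcp ▸ hp
    have hpD : p ∈ n.primeFactors := by
      rw [hun]
      exact mem_union_right _ hpT'
    have hpd : ¬ p ∣ b := by
      intro h
      have h3 : p ∈ T := by
        rw [← hbp]
        exact Nat.mem_primeFactors.2 ⟨hpp, h, hbs.ne_zero⟩
      exact Finset.disjoint_left.1 hdisj h3 hpT'
    have h3 := hx p hpD
    rw [hun, sum_union hdisj] at h3
    have e1 : ∑ q ∈ T, nr p q * (x q + x p) = ∑ q ∈ T, nr p q := by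
      refine sum_congr rfl fun q hq => ?_
      rw [hxT q hq, hxT' p hpT', add_zero, mul_one]
    have e2 : ∑ q ∈ T', nr p q * (x q + x p) = 0 := by
      refine sum_eq_zero fun q hq => ?_
      rw [hxT' q hq, hxT' p hpT', add_zero, mul_zero]
    rw [e1, e2, add_zero, ← hbp, ← ch_sqf (hodd p hpD).2.1 hbs hpd, ch_zero_iff] at h3
    exact (jac_iff hpd).2 h3) (by
    intro p hp
    have hpp := Nat.prime_of_mem_primeFactors hp
    have : Fact p.Prime := ⟨hpp⟩
    have hpT : p ∈ T := hbp ▸ hp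
    have hpD : p ∈ n.primeFactors := by
      rw [hun]
      exact mem_union_left _ hpT
    have hpe : ¬ p ∣ c := by
      intro h
      have h3 : p ∈ T' := by
        rw [← hcp]
        exact Nat.mem_primeFactors.2 ⟨hpp, h, hcs.ne_zero⟩
      exact Finset.disjoint_left.1 hdisj hpT h3
    have h3 := hx p hpD
    rw [hun, sum_union hdisj] at h3
    have e1 : ∑ q ∈ T, nr p q * (x q + x p) = 0 := by
      refine sum_eq_zero fun q hq => ?_
      rw [hxT q hq, hxT p hpT, h11, mul_zero]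
    have e2 : ∑ q ∈ T', nr p q * (x q + x p) = ∑ q ∈ T', nr p q := by
      refine sum_congr rfl fun q hq => ?_
      rw [hxT' q hq, hxT p hpT, zero_add, mul_one]
    rw [e1, e2, zero_add, ← hcp, ← ch_sqf (hodd p hpD).2.1 hcs hpe, ch_zero_iff] at h3
    exact (jac_iff hpe).2 h3)
  intro p hp q hq
  rcases h1 with h1 | h1
  · have hemp : ∀ r ∈ n.primeFactors, x r = 0 := by
      intro r hr
      by_contra hne
      have hrT : r ∈ T := mem_filter.2 ⟨hr, hne⟩
      have : r ∣ b := dvd_prod_of_mem _ hrT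
      rw [h1] at this
      exact (Nat.prime_of_mem_primeFactors hr).one_lt.ne' (Nat.dvd_one.1 this)
    rw [hemp p hp, hemp q hq]
  · have hemp : ∀ r ∈ n.primeFactors, x r = 1 := by
      intro r hr
      rcases zmod2_cases (x r) with h | h
      · exfalso
        have hrT : r ∈ T' := mem_filter.2 ⟨hr, not_not.2 h⟩
        have : r ∣ c := dvd_prod_of_mem _ hrT
        rw [h1] at this
        exact (Nat.prime_of_mem_primeFactors hr).one_lt.ne' (Nat.dvd_one.1 this)
      · exact h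
    rw [hemp p hp, hemp q hq]

/-- the second system has the trivial solutions only -/
theorem K_tr (hn : Squarefree n) (hn4 : n % 4 = 3) (hQ : Qc n) (x : ℕ → ZMod 2)
    (hx : ∀ p ∈ n.primeFactors, ∑ q ∈ n.primeFactors, nr q p * (x q + x p) = 0) :
    ∀ p ∈ n.primeFactors, ∀ q ∈ n.primeFactors, x p = x q :=
  dual nr (rowcol hn hn4) (fun y hy => K_of hn (by omega) hQ y hy) x hx

theorem sf_dvd {a n : ℕ} (ha : Squarefree a) (hn : Squarefree n)
    (h : ∀ q : ℕ, q.Prime → q ∣ a → q ∣ n) : a ∣ n := by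
  rw [← Nat.prod_primeFactors_of_squarefree ha, ← Nat.prod_primeFactors_of_squarefree hn]
  refine prod_dvd_prod_of_subset _ _ _ fun q hq => ?_
  have hqp := Nat.prime_of_mem_primeFactors hq
  exact Nat.mem_primeFactors.2 ⟨hqp, h q hqp (Nat.dvd_of_mem_primeFactors hq), hn.ne_zero⟩

/-- a number `1` modulo `4` which is a square modulo `p` -/
theorem cls {Y : ℤ} (hY : Squarefree Y.natAbs) (h4 : Y % 4 = 1) {p : ℕ} [hp : Fact p.Prime]
    (h2 : p ≠ 2) (hpY : ¬ (p : ℤ) ∣ Y) (hs : IsSquare (Y : ZMod p)) :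
    ∑ q ∈ Y.natAbs.primeFactors, nr q p = 0 := by
  have hodd : ∀ q ∈ Y.natAbs.primeFactors, q.Prime ∧ q ≠ 2 ∧ q % 2 = 1 :=
    fun q hq => odd_pf (by omega) hq
  have h1 := sum_rec (T := Y.natAbs.primeFactors) hp.out h2
    (fun q hq => ⟨(hodd q hq).1, (hodd q hq).2.1⟩) (by
      intro h
      exact hpY (Int.natCast_dvd.2 (Nat.dvd_of_mem_primeFactors h)))
  have h3 := ch_zero_iff.2 hs
  rw [ch_unit h2 hpY, ← lam_natAbs, lam_m hY] at h3
  have h5 : sg Y = ∑ q ∈ Y.natAbs.primeFactors, e3 q := by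
    have h6 := mod4 (T := Y.natAbs.primeFactors) fun q hq => (hodd q hq).2.2
    rw [Nat.prod_primeFactors_of_squarefree hY] at h6
    rcases lt_or_ge Y 0 with h | h
    · rw [sg_neg h]
      rcases h6 with h6 | h6
      · omega
      · exact h6.2.symm
    · rw [sg_pos (by omega)]
      rcases h6 with h6 | h6
      · exact h6.2.symm
      · omega
  rw [h1, ← h5]
  exact h3

end

section

variable {p : ℕ} [hp : Fact p.Prime] {n : ℕ}

theorem at_p (hn : Squarefree n) (hpn : p ∈ n.primeFactors) {ε X c : ℤ} (hε : ε = 1 ∨ ε = -1)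
    (hXc : (n : ℤ) = X * c) (h : SqP p (X : ℚ) ∨ SqP p ((ε * n * X : ℤ) : ℚ)) :
    (¬ (p : ℤ) ∣ X ∧ (p : ℤ) ∣ c ∧ IsSquare (X : ZMod p)) ∨
      ((p : ℤ) ∣ X ∧ ¬ (p : ℤ) ∣ ε * c ∧ IsSquare ((ε * c : ℤ) : ZMod p)) := by
  have hpi : Prime (p : ℤ) := Nat.prime_iff_prime_int.1 hp.out
  have hεd : ¬ (p : ℤ) ∣ ε := by
    intro h
    have h1 : (p : ℤ) ∣ 1 := by
      rcases hε with h3 | h3
      · rwa [h3] at h
      · rwa [h3, dvd_neg] at h
    exact hpi.not_dvd_one h1
  have hsqn : ¬ (p : ℤ) * p ∣ n := by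
    intro h
    have h1 : p * p ∣ n := by exact_mod_cast h
    exact hp.out.not_isUnit (hn p h1)
  have hpn' : (p : ℤ) ∣ n := by exact_mod_cast Nat.dvd_of_mem_primeFactors hpn
  have hn0 : (n : ℤ) ≠ 0 := by exact_mod_cast hn.ne_zero
  have hX0 : X ≠ 0 := by
    rintro rfl
    rw [zero_mul] at hXc
    exact hn0 hXc
  by_cases hpX : (p : ℤ) ∣ X
  · right
    obtain ⟨X', hX'⟩ := hpX
    have hpc : ¬ (p : ℤ) ∣ c := by
      rintro ⟨c', hc'⟩
      apply hsqn
      rw [hXc, hX', hc']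
      exact ⟨X' * c', by ring⟩
    have hpX' : ¬ (p : ℤ) ∣ X' := by
      rintro ⟨c', hc'⟩
      apply hsqn
      rw [hXc, hX', hc']
      exact ⟨c' * c, by ring⟩
    have hpε : ¬ (p : ℤ) ∣ ε * c := fun h => (hpi.dvd_or_dvd h).elim hεd hpc
    refine ⟨⟨X', hX'⟩, hpε, ?_⟩
    rcases h with h | h
    · exfalso
      rw [hX'] at h
      exact SqP_even hpX' h
    · have e : (ε * n * X : ℤ) = X ^ 2 * (ε * c) := by
        rw [hXc]
        ring
      rw [e] at h
      exact SqP.isSquare hpε (SqP_div hX0 h)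
  · left
    have hpc : (p : ℤ) ∣ c := by
      rw [hXc] at hpn'
      exact (hpi.dvd_or_dvd hpn').resolve_left hpX
    refine ⟨hpX, hpc, ?_⟩
    rcases h with h | h
    · exact SqP.isSquare hpX h
    · exfalso
      obtain ⟨c', hc'⟩ := hpc
      have hpc' : ¬ (p : ℤ) ∣ c' := by
        rintro ⟨c'', hc''⟩
        apply hsqn
        rw [hXc, hc', hc'']
        exact ⟨X * c'', by ring⟩
      have e : (ε * n * X : ℤ) = p * (ε * X ^ 2 * c') := by
        rw [hXc, hc']
        ring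
      rw [e] at h
      refine SqP_even ?_ h
      intro h5
      rcases hpi.dvd_or_dvd h5 with h5 | h5
      · rcases hpi.dvd_or_dvd h5 with h5 | h5
        · exact hεd h5
        · exact hpX (hpi.dvd_of_dvd_pow h5)
      · exact hpc' h5

end

end Run7.h424.DC
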