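import Mathlib
import Pool.Agent.Run7.h843.S4
import Pool.Agent.Run7.h843.R1

/-!
# The local images of `y² = x (x + 9 n) (x + 25 n)` and of its isogenous curve at `2`
-/

set_option autoImplicit false
set_option linter.unusedSimpArgs false

attribute [-instance] DivisionRing.toRatAlgebra

namespace Run7.h424.DC

open Pool.Agent.Y682 (S1 S2)
open Run7.h843.Sha Run7.h843.Desc

/-- the squares modulo `16` -/
def Q16 : Finset (ZMod (2 ^ 4)) := {0, 1, 4, 9}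

/-- the numbers `3` modulo `4` modulo `16` -/
def T16 : Finset (ZMod (2 ^ 4)) := {3, 7, 11, 15}

/-- the odd numbers modulo `16` -/
def O16 : Finset (ZMod (2 ^ 4)) := {1, 3, 5, 7, 9, 11, 13, 15}

theorem mem_Q16 (a : ZMod (2 ^ 4)) : a ^ 2 ∈ Q16 := by
  revert a
  decide

theorem mem_T16 (j : ℤ) : ((4 * j + 3 : ℤ) : ZMod (2 ^ 4)) ∈ T16 := by
  push_cast
  have : ∀ a : ZMod (2 ^ 4), 4 * a + 3 ∈ T16 := by decide
  exact this _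

theorem mem_O16 (j : ℤ) : ((2 * j + 1 : ℤ) : ZMod (2 ^ 4)) ∈ O16 := by
  push_cast
  have : ∀ a : ZMod (2 ^ 4), 2 * a + 1 ∈ O16 := by decide
  exact this _

theorem dec1 : ∀ X ∈ T16, ∀ n ∈ T16, ∀ s ∈ Q16, ∀ t ∈ Q16,
    t ≠ X ^ 3 * s ^ 2 + 34 * n * X ^ 2 * s + 225 * n ^ 2 * X := by decide

theorem dec2 : ∀ u ∈ O16, ∀ n ∈ T16, ∀ s ∈ Q16, ∀ t ∈ Q16,
    t ≠ 2 * u ^ 3 * s ^ 2 - 17 * n * u ^ 2 * s + 8 * n ^ 2 * u := by decide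

theorem cc34 : ((34 : ℤ_[2]) : ℚ_[2]) = 34 := by
  exact_mod_cast PadicInt.coe_natCast 34

theorem cc225 : ((225 : ℤ_[2]) : ℚ_[2]) = 225 := by
  exact_mod_cast PadicInt.coe_natCast 225

theorem cc17 : ((17 : ℤ_[2]) : ℚ_[2]) = 17 := by
  exact_mod_cast PadicInt.coe_natCast 17

theorem cc (k : ℕ) : (((2 : ℤ_[2]) ^ k : ℤ_[2]) : ℚ_[2]) = 2 ^ k := by
  rw [PadicInt.coe_pow, cc2]

/-- the quartic of the first curve -/
theorem quE {X n : ℤ} (hX : X % 4 = 3) (hn : n % 4 = 3) (t z : ℚ_[2])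
    (h : t ^ 2 = X ^ 3 * z ^ 4 + 34 * n * X ^ 2 * z ^ 2 + 225 * n ^ 2 * X) : False := by
  obtain ⟨j, hj⟩ : ∃ j : ℤ, X = 4 * j + 3 := ⟨X / 4, by omega⟩
  obtain ⟨l, hl⟩ : ∃ l : ℤ, n = 4 * l + 3 := ⟨n / 4, by omega⟩
  rcases rep2 z with ⟨Z, rfl⟩ | ⟨k, Z, Z', hZZ, hZ⟩
  · have h1 : t ^ 2 = (((X : ℤ_[2]) ^ 3 * Z ^ 4 + ((34 : ℤ) : ℤ_[2]) * n * X ^ 2 * Z ^ 2 +
        ((225 : ℤ) : ℤ_[2]) * n ^ 2 * X : ℤ_[2]) : ℚ_[2]) := by
      rw [h]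
      push_cast
      simp only [cc2, cc4, cc8, cc34, cc225, cc17]
    obtain ⟨Y, hY⟩ := int_of_sq h1
    have h2 : Y ^ 2 = (X : ℤ_[2]) ^ 3 * Z ^ 4 + ((34 : ℤ) : ℤ_[2]) * n * X ^ 2 * Z ^ 2 +
        ((225 : ℤ) : ℤ_[2]) * n ^ 2 * X := by
      apply Subtype.ext
      rw [PadicInt.coe_pow, hY, h1]
    have h3 := congrArg (PadicInt.toZModPow 4) h2
    simp only [map_add, map_mul, map_pow, map_intCast] at h3
    refine dec1 _ (mem_T16 j) _ (mem_T16 l) _ (mem_Q16 (PadicInt.toZModPow 4 Z)) _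
      (mem_Q16 (PadicInt.toZModPow 4 Y)) ?_
    rw [h3, ← hj, ← hl]
    push_cast
    ring
  · have h1 : (t * 4 ^ (k + 1)) ^ 2 =
        (((X : ℤ_[2]) ^ 3 * Z ^ 4 + 4 * (((34 : ℤ) : ℤ_[2]) * n * X ^ 2 * Z ^ 2 * (2 ^ k) ^ 2 +
          4 * (((225 : ℤ) : ℤ_[2]) * n ^ 2 * X * (2 ^ k) ^ 4)) : ℤ_[2]) : ℚ_[2]) := by
      have e4 : (4 : ℚ_[2]) ^ (k + 1) = (2 * 2 ^ k) ^ 2 := by
        rw [mul_pow, ← pow_mul, mul_comm k 2, pow_mul, pow_succ]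
        norm_num
        ring
      push_cast
      simp only [cc2, cc4, cc8, cc34, cc225, cc17]
      rw [← hZ, e4, pow_succ]
      linear_combination (2 * 2 ^ k) ^ 4 * h
    obtain ⟨Y, hY⟩ := int_of_sq h1
    have h2 : Y ^ 2 = (X : ℤ_[2]) ^ 3 * Z ^ 4 + 4 * (((34 : ℤ) : ℤ_[2]) * n * X ^ 2 * Z ^ 2 *
        (2 ^ k) ^ 2 + 4 * (((225 : ℤ) : ℤ_[2]) * n ^ 2 * X * (2 ^ k) ^ 4)) := by
      apply Subtype.ext
      rw [PadicInt.coe_pow, hY, h1]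
    have h3 := congrArg (PadicInt.toZModPow 2) h2
    have h4 : (4 : ZMod (2 ^ 2)) = 0 := by decide
    rw [map_pow, map_add, map_mul, map_mul _ 4, map_ofNat, h4, zero_mul, add_zero, map_pow, map_pow,
      map_intCast, hj] at h3
    push_cast at h3
    rw [h4, zero_mul, zero_add] at h3
    have h6 := congrArg (PadicInt.toZModPow 2) hZZ
    rw [map_mul, map_one] at h6
    have h5 : ∀ Y Z Z' : ZMod (2 ^ 2), Z * Z' = 1 → Y ^ 2 ≠ 3 ^ 3 * Z ^ 4 := by decide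
    exact h5 _ _ _ h6 h3

/-- the quartic of the second curve -/
theorem quE' {j n : ℤ} (hn : n % 4 = 3) (t z : ℚ_[2])
    (h : t ^ 2 = 2 * ((2 * j + 1 : ℤ) : ℚ_[2]) ^ 3 * z ^ 4 - 17 * n * ((2 * j + 1 : ℤ) : ℚ_[2]) ^ 2 * z ^ 2 +
      8 * n ^ 2 * ((2 * j + 1 : ℤ) : ℚ_[2])) : False := by
  obtain ⟨l, hl⟩ : ∃ l : ℤ, n = 4 * l + 3 := ⟨n / 4, by omega⟩
  obtain ⟨u, hu⟩ : ∃ u : ℤ, u = 2 * j + 1 := ⟨_, rfl⟩
  rw [← hu] at h
  rcases rep2 z with ⟨Z, rfl⟩ | ⟨k, Z, Z', hZZ, hZ⟩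
  · have h1 : t ^ 2 = ((((2 : ℤ) : ℤ_[2]) * (u : ℤ_[2]) ^ 3 * Z ^ 4 - ((17 : ℤ) : ℤ_[2]) * n * u ^ 2 * Z ^ 2 +
        ((8 : ℤ) : ℤ_[2]) * n ^ 2 * u : ℤ_[2]) : ℚ_[2]) := by
      rw [h]
      push_cast
      simp only [cc2, cc4, cc8, cc34, cc225, cc17]
    obtain ⟨Y, hY⟩ := int_of_sq h1
    have h2 : Y ^ 2 = ((2 : ℤ) : ℤ_[2]) * (u : ℤ_[2]) ^ 3 * Z ^ 4 - ((17 : ℤ) : ℤ_[2]) * n * u ^ 2 * Z ^ 2 +
        ((8 : ℤ) : ℤ_[2]) * n ^ 2 * u := by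
      apply Subtype.ext
      rw [PadicInt.coe_pow, hY, h1]
    have h3 := congrArg (PadicInt.toZModPow 4) h2
    simp only [map_add, map_sub, map_mul, map_pow, map_intCast] at h3
    refine dec2 _ (mem_O16 j) _ (mem_T16 l) _ (mem_Q16 (PadicInt.toZModPow 4 Z)) _
      (mem_Q16 (PadicInt.toZModPow 4 Y)) ?_
    rw [h3, ← hu, ← hl]
    push_cast
    ring
  · have h1 : (t * 4 ^ (k + 1)) ^ 2 =
        ((((2 : ℤ) : ℤ_[2]) * (u : ℤ_[2]) ^ 3 * Z ^ 4 + 4 * (-(((17 : ℤ) : ℤ_[2]) * n * u ^ 2 * Z ^ 2 * (2 ^ k) ^ 2) +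
          4 * (((8 : ℤ) : ℤ_[2]) * n ^ 2 * u * (2 ^ k) ^ 4)) : ℤ_[2]) : ℚ_[2]) := by
      have e4 : (4 : ℚ_[2]) ^ (k + 1) = (2 * 2 ^ k) ^ 2 := by
        rw [mul_pow, ← pow_mul, mul_comm k 2, pow_mul, pow_succ]
        norm_num
        ring
      push_cast
      simp only [cc2, cc4, cc8, cc34, cc225, cc17]
      rw [← hZ, e4, pow_succ]
      linear_combination (2 * 2 ^ k) ^ 4 * h
    obtain ⟨Y, hY⟩ := int_of_sq h1
    have h2 : Y ^ 2 = ((2 : ℤ) : ℤ_[2]) * (u : ℤ_[2]) ^ 3 * Z ^ 4 + 4 * (-(((17 : ℤ) : ℤ_[2]) * n * u ^ 2 *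
        Z ^ 2 * (2 ^ k) ^ 2) + 4 * (((8 : ℤ) : ℤ_[2]) * n ^ 2 * u * (2 ^ k) ^ 4)) := by
      apply Subtype.ext
      rw [PadicInt.coe_pow, hY, h1]
    have h3 := congrArg (PadicInt.toZModPow 2) h2
    have h4 : (4 : ZMod (2 ^ 2)) = 0 := by decide
    rw [map_pow, map_add, map_mul _ 4, map_ofNat, h4, zero_mul, add_zero, map_mul, map_mul, map_pow,
      map_pow, map_intCast, map_intCast, hu] at h3
    push_cast at h3
    have h6 := congrArg (PadicInt.toZModPow 2) hZZ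
    rw [map_mul, map_one] at h6
    have h5 : ∀ Y Z Z' J : ZMod (2 ^ 2), Z * Z' = 1 → Y ^ 2 ≠ 2 * (2 * J + 1) ^ 3 * Z ^ 4 := by decide
    exact h5 _ _ _ _ h6 h3

theorem not_sq3 {X : ℤ} (hX : X % 4 = 3) (z : ℚ_[2]) (hz : z ^ 2 = (X : ℚ_[2])) : False := by
  refine nsq (t := X) 2 ?_ z hz
  obtain ⟨j, hj⟩ : ∃ j : ℤ, X = 4 * j + 3 := ⟨X / 4, by omega⟩
  intro W hW
  rw [hj] at hW
  push_cast at hW
  have h5 : ∀ W J : ZMod (2 ^ 2), W ^ 2 ≠ 4 * J + 3 := by decide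
  exact h5 W _ hW

/-- **the first curve at `2`**: the classes of the units are `1` modulo `4` -/
theorem twoE {n X : ℤ} (hn : n % 4 = 3) (hX2 : X % 2 = 1)
    (h : C1 ℚ_[2] ((34 * n : ℤ) : ℚ) ((225 * n ^ 2 : ℤ) : ℚ) (X : ℚ)) : X % 4 = 1 := by
  by_contra hX1
  have hX : X % 4 = 3 := by omega
  obtain ⟨z, m, hz, hzm, hm⟩ := h
  rw [Rat.cast_intCast, Rat.cast_intCast] at hm
  rw [Rat.cast_intCast] at hzm
  have hn0 : (n : ℚ_[2]) ≠ 0 := by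
    have : n ≠ 0 := by omega
    exact_mod_cast this
  rcases hm with hm | hm | ⟨h0, y, hy⟩
  · exact not_sq3 hX (X * z) (by linear_combination (X : ℚ_[2]) * (hzm.trans hm))
  · refine not_sq3 hX (X * z / (15 * n)) ?_
    rw [div_pow, div_eq_iff (pow_ne_zero 2 (mul_ne_zero (by norm_num) hn0))]
    push_cast at hm
    linear_combination (X : ℚ_[2]) * (hzm.trans hm)
  · refine quE hX hn (y / z) z ?_
    rw [div_pow, hy, ← hzm]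
    push_cast
    field_simp

/-- **the second curve at `2`**: the classes are odd -/
theorem twoE' {n j : ℤ} (hn : n % 4 = 3)
    (h : C1 ℚ_[2] ((-68 * n : ℤ) : ℚ) ((256 * n ^ 2 : ℤ) : ℚ) ((2 * (2 * j + 1) : ℤ) : ℚ)) : False := by
  obtain ⟨z, m, hz, hzm, hm⟩ := h
  rw [Rat.cast_intCast, Rat.cast_intCast] at hm
  rw [Rat.cast_intCast] at hzm
  obtain ⟨u, hu⟩ : ∃ u : ℤ, u = 2 * j + 1 := ⟨_, rfl⟩
  have hu0 : (u : ℚ_[2]) ≠ 0 := by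
    have : u ≠ 0 := by omega
    exact_mod_cast this
  have hn0 : (n : ℚ_[2]) ≠ 0 := by
    have : n ≠ 0 := by omega
    exact_mod_cast this
  rw [← hu, Int.cast_mul, Int.cast_ofNat] at hzm
  rcases hm with hm | hm | ⟨h0, y, hy⟩
  · refine no_2m j (2 * u * z) ?_
    rw [← hu]
    linear_combination 2 * (u : ℚ_[2]) * (hzm.trans hm)
  · refine no_2m j (2 * u * z / (16 * n)) ?_
    rw [← hu, div_pow, div_eq_iff (pow_ne_zero 2 (mul_ne_zero (by norm_num) hn0))]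
    push_cast at hm
    linear_combination 2 * (u : ℚ_[2]) * (hzm.trans hm)
  · refine quE' (j := j) hn (y / (8 * z)) (z / 2) ?_
    rw [← hu, div_pow, hy, ← hzm]
    push_cast
    field_simp
    ring

end Run7.h424.DC
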