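import Mathlib
import Pool.Agent.Run7.h843.S6
import Pool.Agent.Run7.h424.DC.Cr
import Pool.Agent.Run7.h424.DC.Tw

/-!
# The Selmer groups of `y² = x (x + 9 n) (x + 25 n)` for the isogenies with kernel `(0, 0)`
-/

set_option autoImplicit false

attribute [-instance] DivisionRing.toRatAlgebra

namespace Run7.h424.DC

open Finset
open Pool.Agent.Y682 (S1 S2 LL1 LL2 Sq quot_eq IsT Zc Zc_card Zc_lower MP)
open Run7.h843.Sha Run7.h843.Desc
open Run7.h843.R (C2_iff good_even)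
open Pool.Agent.Y703.CQ (nr)
open Pool.Agent.N969.P15 (Qc)

/-- a squarefree representative of the class of a rational number -/
theorem exists_sf {b : ℚ} (hb : b ≠ 0) : ∃ (X : ℤ) (d : ℚ), Squarefree X.natAbs ∧ d ≠ 0 ∧
    (X : ℚ) = b * d ^ 2 := by
  obtain ⟨X0, d0, hX0, hd0, h0⟩ := exists_X hb
  obtain ⟨t, s, -, hs, hst, ht⟩ := Nat.sq_mul_squarefree_of_pos (Int.natAbs_pos.2 hX0)
  have hs' : (s : ℚ) ≠ 0 := by exact_mod_cast hs.ne'
  rcases lt_or_gt_of_ne hX0 with h | h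
  · have h1 : X0 = -((s : ℤ) ^ 2 * t) := by
      have h2 : ((s ^ 2 * t : ℕ) : ℤ) = -X0 := by
        rw [hst]
        omega
      push_cast at h2
      omega
    refine ⟨-t, d0 / s, by rwa [Int.natAbs_neg, Int.natAbs_natCast], div_ne_zero hd0 hs', ?_⟩
    rw [h1] at h0
    push_cast at h0 ⊢
    field_simp
    linear_combination h0
  · have h1 : X0 = (s : ℤ) ^ 2 * t := by
      have h2 : ((s ^ 2 * t : ℕ) : ℤ) = X0 := by
        rw [hst]
        omega
      push_cast at h2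
      omega
    refine ⟨t, d0 / s, by rwa [Int.natAbs_natCast], div_ne_zero hd0 hs', ?_⟩
    rw [h1] at h0
    push_cast at h0 ⊢
    field_simp
    linear_combination h0

theorem vv_dvd {X : ℤ} (hX : Squarefree X.natAbs) {q : ℕ} (hq : q.Prime) (h : vv q X = 0) :
    ¬ (q : ℤ) ∣ X := by
  intro h1
  have h2 := vv_sqfree hX (Nat.mem_primeFactors.2 ⟨hq, Int.natCast_dvd.1 h1, hX.ne_zero⟩)
  have h3 : vv q (X.natAbs : ℤ) = vv q X := by
    unfold vv
    rw [Int.natAbs_natCast]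
  rw [h3, h] at h2
  exact absurd h2 (by decide)

theorem nd_prod {q : ℕ} (hq : q.Prime) {n : ℕ} {A : ℕ} (hA : ¬ q ∣ A) (hqn : ¬ q ∣ n) :
    ¬ (q : ℤ) ∣ (A : ℤ) * (n : ℤ) ^ 2 := by
  intro h
  have h1 : q ∣ A * n ^ 2 := by exact_mod_cast h
  rcases hq.dvd_mul.1 h1 with h2 | h2
  · exact hA h2
  · exact hqn (hq.dvd_of_dvd_pow h2)

theorem npd {q : ℕ} (hq : q.Prime) {a : ℕ} (ha : a.Prime) (h : q ≠ a) (k : ℕ) : ¬ q ∣ a ^ k := by
  intro h1
  exact h ((Nat.prime_dvd_prime_iff_eq hq ha).1 (hq.dvd_of_dvd_pow h1))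

section

variable {n : ℕ}

theorem real_pos {X : ℚ} (hn : 0 < n)
    (h : C1 ℝ ((-68 * n : ℤ) : ℚ) ((256 * n ^ 2 : ℤ) : ℚ) X) : 0 < X := by
  obtain ⟨z, m', hz, hzm, hm'⟩ := h
  have hmr : (0 : ℝ) < n := by exact_mod_cast hn
  push_cast at hm'
  have hm1 : 0 < m' := by
    rcases hm' with hm' | hm' | ⟨h0, y, hy⟩
    · rw [hm']; exact one_pos
    · rw [hm']; positivity
    · by_contra h1
      have h2 : m' < 0 := lt_of_le_of_ne (not_lt.1 h1) h0
      have h3 : 0 < m' ^ 2 + -68 * (n : ℝ) * m' + 256 * (n : ℝ) ^ 2 := by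
        have h4 : 0 < (n : ℝ) * -m' := mul_pos hmr (by linarith)
        nlinarith [sq_nonneg m', sq_nonneg (n : ℝ)]
      nlinarith [sq_nonneg y, mul_neg_of_neg_of_pos h2 h3]
  have h5 : 0 < (X : ℝ) := by
    by_contra h6
    have h7 : (X : ℝ) * z ^ 2 ≤ 0 := mul_nonpos_of_nonpos_of_nonneg (not_lt.1 h6) (sq_nonneg z)
    linarith
  exact_mod_cast h5

theorem res (h60 : n % 60 = 23 ∨ n % 60 = 47) :
    ¬ IsSquare ((25 * n : ℤ) : ZMod 3) ∧ ¬ IsSquare ((9 * n : ℤ) : ZMod 5) := by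
  constructor
  · obtain ⟨k, hk⟩ : ∃ k : ℕ, n = 3 * k + 2 := ⟨n / 3, by omega⟩
    have e : ((25 * n : ℤ) : ZMod 3) = 2 := by
      rw [hk]
      push_cast
      have h3 : (3 : ZMod 3) = 0 := by decide
      have h50 : (25 : ZMod 3) * 2 = 2 := by decide
      linear_combination 25 * (k : ZMod 3) * h3 + h50
    rw [e]
    decide
  · have h5 : n % 5 = 2 ∨ n % 5 = 3 := by omega
    have h50 : (5 : ZMod 5) = 0 := by decide
    rcases h5 with h5 | h5
    · obtain ⟨k, hk⟩ : ∃ k : ℕ, n = 5 * k + 2 := ⟨n / 5, by omega⟩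
      have e : ((9 * n : ℤ) : ZMod 5) = 3 := by
        rw [hk]
        push_cast
        have h51 : (9 : ZMod 5) * 2 = 3 := by decide
        linear_combination 9 * (k : ZMod 5) * h50 + h51
      rw [e]
      decide
    · obtain ⟨k, hk⟩ : ∃ k : ℕ, n = 5 * k + 3 := ⟨n / 5, by omega⟩
      have e : ((9 * n : ℤ) : ZMod 5) = 2 := by
        rw [hk]
        push_cast
        have h51 : (9 : ZMod 5) * 3 = 2 := by decide
        linear_combination 9 * (k : ZMod 5) * h50 + h51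
      rw [e]
      decide

/-- **the second Selmer group** -/
theorem sel2 (hn : Squarefree n) (h60 : n % 60 = 23 ∨ n % 60 = 47) (hQ : Qc n) {b : ℚ}
    (hb : b ≠ 0) (h : LL2 ((34 * n : ℤ) : ℚ) ((225 * n ^ 2 : ℤ) : ℚ) b) :
    ∃ c : ℚ, b = c ^ 2 ∨ b = n * c ^ 2 := by
  obtain ⟨X, d, hXs, hd, hXb⟩ := exists_sf hb
  have eA : (-2 : ℚ) * ((34 * n : ℤ) : ℚ) = ((-68 * n : ℤ) : ℚ) := by push_cast; ring
  have eB : ((34 * n : ℤ) : ℚ) ^ 2 - 4 * ((225 * n ^ 2 : ℤ) : ℚ) = ((256 * n ^ 2 : ℤ) : ℚ) := by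
    push_cast
    ring
  have hall : ∀ q : ℕ, ∀ hq : q.Prime, @C1 (@Padic q ⟨hq⟩) _ ((-68 * n : ℤ) : ℚ)
      ((256 * n ^ 2 : ℤ) : ℚ) (X : ℚ) := by
    intro q hq
    have : Fact q.Prime := ⟨hq⟩
    rw [hXb, ← eA, ← eB]
    exact C1_mul hd (C2_iff.1 (LL2_pad h q))
  have hn0 : 0 < n := Nat.pos_of_ne_zero hn.ne_zero
  have hX0 : 0 < X := by
    have : (0 : ℚ) < X := by
      refine real_pos hn0 ?_
      rw [hXb, ← eA, ← eB]
      exact C1_mul hd (C2_iff.1 (LL2_real h))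
    exact_mod_cast this
  have hout : ∀ q : ℕ, q.Prime → ¬ q ∣ n → ¬ (q : ℤ) ∣ X := by
    intro q hq hqn
    by_cases hq2 : q = 2
    · subst hq2
      intro hX2
      obtain ⟨u, hu⟩ := hX2
      have hu2 : u % 2 = 1 := by
        by_contra h2
        have h4 : 2 * 2 ∣ X.natAbs := by
          rw [hu]
          omega
        exact Nat.prime_two.not_isUnit (hXs 2 h4)
      obtain ⟨j, hj⟩ : ∃ j : ℤ, u = 2 * j + 1 := ⟨u / 2, by omega⟩
      have h5 := hall 2 Nat.prime_two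
      rw [hu, hj] at h5
      exact twoE' (n := n) (j := j) (by omega) h5
    · have : Fact q.Prime := ⟨hq⟩
      refine vv_dvd hXs hq (good_even (p := q) ?_ (by omega) (hall q hq))
      have h5 := nd_prod (n := n) hq (A := 256) (by
        have := npd hq Nat.prime_two hq2 8
        norm_num at this
        exact this) hqn
      exact_mod_cast h5
  have hXn : X.natAbs ∣ n := sf_dvd hXs hn fun q hq hqX => by
    by_contra hqn
    exact hout q hq hqn (Int.natCast_dvd.2 hqX)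
  obtain ⟨c, hc⟩ := hXn
  have hXN : ((X.natAbs : ℕ) : ℤ) = X := by omega
  have hXc : (n : ℤ) = X * (c : ℤ) := by
    rw [← hXN]
    exact_mod_cast hc
  have hat : ∀ p ∈ n.primeFactors, (¬ (p : ℤ) ∣ X ∧ (p : ℤ) ∣ c ∧ IsSquare (X : ZMod p)) ∨
      ((p : ℤ) ∣ X ∧ ¬ (p : ℤ) ∣ 1 * c ∧ IsSquare ((1 * c : ℤ) : ZMod p)) := by
    intro p hp
    obtain ⟨hpp, hp2, -⟩ := odd_pf (n := n) (by omega) hp
    have : Fact p.Prime := ⟨hpp⟩
    have h8 := npd hpp Nat.prime_two hp2 3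
    have h2 := npd hpp Nat.prime_two hp2 1
    refine at_p hn hp (Or.inl rfl) hXc ?_
    refine inG (r := 2) (r' := 8) hp2 hn hp (Or.inl rfl) (by exact_mod_cast h2)
      (by exact_mod_cast h8) ?_
    have e1 : (-1 * (2 ^ 2 + 8 ^ 2) * n : ℤ) = -68 * n := by ring
    have e2 : (2 ^ 2 * 8 ^ 2 * n ^ 2 : ℤ) = 256 * n ^ 2 := by ring
    rw [e1, e2]
    exact hall p hpp
  have hfin := hQ X.natAbs c hc.symm (by
    intro p hp
    have hpp := Nat.prime_of_mem_primeFactors hp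
    have : Fact p.Prime := ⟨hpp⟩
    have hpn : p ∈ n.primeFactors := Nat.mem_primeFactors.2 ⟨hpp,
      (Nat.dvd_of_mem_primeFactors hp).trans ⟨X.natAbs, by rw [hc, mul_comm]⟩, hn.ne_zero⟩
    have hpc : (p : ℤ) ∣ c := by exact_mod_cast Nat.dvd_of_mem_primeFactors hp
    rcases hat p hpn with ⟨h1, -, h2⟩ | ⟨-, h1, -⟩
    · rw [jac_iff, hXN]
      · exact h2
      · intro h3
        exact h1 (Int.natCast_dvd.2 h3)
    · exact absurd (by rw [one_mul]; exact hpc) h1) (by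
    intro p hp
    have hpp := Nat.prime_of_mem_primeFactors hp
    have : Fact p.Prime := ⟨hpp⟩
    have hpn : p ∈ n.primeFactors := Nat.mem_primeFactors.2 ⟨hpp,
      (Nat.dvd_of_mem_primeFactors hp).trans ⟨c, hc⟩, hn.ne_zero⟩
    have hpX : (p : ℤ) ∣ X := Int.natCast_dvd.2 (Nat.dvd_of_mem_primeFactors hp)
    rcases hat p hpn with ⟨h1, -, -⟩ | ⟨-, h1, h2⟩
    · exact absurd hpX h1
    · rw [one_mul] at h1 h2
      rw [jac_iff]
      · exact h2
      · exact_mod_cast h1)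
  have hbX : b = X / d ^ 2 := by rw [hXb]; field_simp
  have hnq : (n : ℚ) ≠ 0 := by exact_mod_cast hn.ne_zero
  rcases hfin with h1 | h1
  · have hX1 : X = 1 := by omega
    refine ⟨1 / d, Or.inl ?_⟩
    rw [hbX, hX1]
    push_cast
    ring
  · have hX1 : X = n := by
      rw [hXc, h1]
      push_cast
      ring
    refine ⟨1 / d, Or.inr ?_⟩
    rw [hbX, hX1]
    push_cast
    ring

/-- **the first Selmer group** -/
theorem sel1 (hn : Squarefree n) (h60 : n % 60 = 23 ∨ n % 60 = 47) (hQ : Qc n) {b : ℚ}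
    (hb : b ≠ 0) (h : LL1 ((34 * n : ℤ) : ℚ) ((225 * n ^ 2 : ℤ) : ℚ) b) :
    ∃ c : ℚ, b = c ^ 2 ∨ b = -n * c ^ 2 := by
  classical
  obtain ⟨X, d, hXs, hd, hXb⟩ := exists_sf hb
  have hall : ∀ q : ℕ, ∀ hq : q.Prime, @C1 (@Padic q ⟨hq⟩) _ ((34 * n : ℤ) : ℚ)
      ((225 * n ^ 2 : ℤ) : ℚ) (X : ℚ) := by
    intro q hq
    have : Fact q.Prime := ⟨hq⟩
    rw [hXb]
    exact C1_mul hd (LL1_pad h q)
  have hX0 : X ≠ 0 := by
    rintro rfl
    exact hXs.ne_zero rfl
  obtain ⟨r3, r5⟩ := res h60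
  have hout : ∀ q : ℕ, q.Prime → ¬ q ∣ n → ¬ (q : ℤ) ∣ X := by
    intro q hq hqn
    have : Fact q.Prime := ⟨hq⟩
    refine vv_dvd hXs hq ?_
    by_cases hq3 : q = 3
    · subst hq3
      refine out35 (p := 3) (by norm_num) (α := 9 * n) (α' := n) (β := 25 * n) (by norm_num)
        (by intro h5; exact hqn (by exact_mod_cast h5)) (by omega) r3 hX0 ?_
      have e1 : (9 * n + 25 * n : ℤ) = 34 * n := by ring
      have e2 : (9 * n * (25 * n) : ℤ) = 225 * n ^ 2 := by ring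
      rw [e1, e2]
      exact hall 3 hq
    · by_cases hq5 : q = 5
      · subst hq5
        refine out35 (p := 5) (by norm_num) (α := 25 * n) (α' := n) (β := 9 * n) (by norm_num)
          (by intro h5; exact hqn (by exact_mod_cast h5)) (by omega) r5 hX0 ?_
        have e1 : (25 * n + 9 * n : ℤ) = 34 * n := by ring
        have e2 : (25 * n * (9 * n) : ℤ) = 225 * n ^ 2 := by ring
        rw [e1, e2]
        exact hall 5 hq
      · refine good_even (p := q) ?_ hX0 (hall q hq)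
        have h5 := nd_prod (n := n) hq (A := 225) (by
          intro h6
          have h7 : q ∣ 3 ^ 2 * 5 ^ 2 := by
            norm_num
            exact h6
          rcases hq.dvd_mul.1 h7 with h8 | h8
          · exact npd hq Nat.prime_three hq3 2 h8
          · exact npd hq Nat.prime_five hq5 2 h8) hqn
        exact_mod_cast h5
  have hX2 : X % 2 = 1 := by
    have := hout 2 Nat.prime_two (by omega)
    omega
  have hX4 : X % 4 = 1 := twoE (n := n) (by omega) hX2 (hall 2 Nat.prime_two)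
  have hXn : X.natAbs ∣ n := sf_dvd hXs hn fun q hq hqX => by
    by_contra hqn
    exact hout q hq hqn (Int.natCast_dvd.2 hqX)
  obtain ⟨c, hXc⟩ := Int.natAbs_dvd_natAbs.1 (by rwa [Int.natAbs_natCast] : X.natAbs ∣ (n : ℤ).natAbs)
  have hnc : n = X.natAbs * c.natAbs := by
    have := congrArg Int.natAbs hXc
    rwa [Int.natAbs_natCast, Int.natAbs_mul] at this
  have hsq2 : Squarefree (X.natAbs * c.natAbs) := hnc ▸ hn
  have hcs : Squarefree (-c).natAbs := by
    rw [Int.natAbs_neg]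
    exact hsq2.of_mul_right
  have hc4 : (-c) % 4 = 1 := by
    have h1 : (n : ℤ) % 4 = 3 := by omega
    rw [hXc, Int.mul_emod, hX4] at h1
    omega
  have hco : Nat.Coprime X.natAbs c.natAbs := (Nat.squarefree_mul_iff.1 hsq2).1
  have hpf : n.primeFactors = X.natAbs.primeFactors ∪ (-c).natAbs.primeFactors := by
    rw [Int.natAbs_neg]
    conv_lhs => rw [hnc]
    exact Nat.primeFactors_mul hXs.ne_zero hsq2.of_mul_right.ne_zero
  have hdisj : Disjoint X.natAbs.primeFactors (-c).natAbs.primeFactors := by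
    rw [Int.natAbs_neg]
    exact hco.disjoint_primeFactors
  have hat : ∀ p ∈ n.primeFactors, (¬ (p : ℤ) ∣ X ∧ (p : ℤ) ∣ c ∧ IsSquare (X : ZMod p)) ∨
      ((p : ℤ) ∣ X ∧ ¬ (p : ℤ) ∣ -1 * c ∧ IsSquare ((-1 * c : ℤ) : ZMod p)) := by
    intro p hp
    obtain ⟨hpp, hp2, -⟩ := odd_pf (n := n) (by omega) hp
    have : Fact p.Prime := ⟨hpp⟩
    have hpn := Nat.dvd_of_mem_primeFactors hp
    have h3 : ¬ (p : ℤ) ∣ 3 := by
      intro h
      have h' : p ∣ 3 := by exact_mod_cast h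
      rw [(Nat.prime_dvd_prime_iff_eq hpp Nat.prime_three).1 h'] at hpn
      omega
    have h5 : ¬ (p : ℤ) ∣ 5 := by
      intro h
      have h' : p ∣ 5 := by exact_mod_cast h
      rw [(Nat.prime_dvd_prime_iff_eq hpp Nat.prime_five).1 h'] at hpn
      omega
    refine at_p hn hp (Or.inr rfl) hXc ?_
    refine inG (r := 3) (r' := 5) hp2 hn hp (Or.inr rfl) h3 h5 ?_
    have e1 : (-(-1) * (3 ^ 2 + 5 ^ 2) * n : ℤ) = 34 * n := by ring
    have e2 : (3 ^ 2 * 5 ^ 2 * n ^ 2 : ℤ) = 225 * n ^ 2 := by ring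
    rw [e1, e2]
    exact hall p hpp
  set x : ℕ → ZMod 2 := fun q => if (q : ℤ) ∣ X then 1 else 0 with hx
  have hxX : ∀ q ∈ X.natAbs.primeFactors, x q = 1 := fun q hq => by
    rw [hx]
    simp only
    rw [if_pos (Int.natCast_dvd.2 (Nat.dvd_of_mem_primeFactors hq))]
  have hxc : ∀ q ∈ (-c).natAbs.primeFactors, x q = 0 := fun q hq => by
    rw [hx]
    simp only
    rw [if_neg]
    intro h
    have h3 : q ∈ X.natAbs.primeFactors := Nat.mem_primeFactors.2
      ⟨Nat.prime_of_mem_primeFactors hq, Int.natCast_dvd.1 h, hXs.ne_zero⟩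
    exact Finset.disjoint_left.1 hdisj h3 hq
  have h11 : (1 : ZMod 2) + 1 = 0 := by decide
  have hK := K_tr hn (by omega) hQ x (by
    intro p hp
    obtain ⟨hpp, hp2, -⟩ := odd_pf (n := n) (by omega) hp
    have : Fact p.Prime := ⟨hpp⟩
    rw [hpf, sum_union hdisj]
    rcases hat p hp with ⟨h1, h1', h2⟩ | ⟨h1', h1, h2⟩
    · have hpc : p ∈ (-c).natAbs.primeFactors := Nat.mem_primeFactors.2
        ⟨hpp, by rw [Int.natAbs_neg]; exact Int.natCast_dvd.1 h1', hcs.ne_zero⟩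
      have e1 : ∑ q ∈ X.natAbs.primeFactors, nr q p * (x q + x p) =
          ∑ q ∈ X.natAbs.primeFactors, nr q p := by
        refine sum_congr rfl fun q hq => ?_
        rw [hxX q hq, hxc p hpc, add_zero, mul_one]
      have e2 : ∑ q ∈ (-c).natAbs.primeFactors, nr q p * (x q + x p) = 0 := by
        refine sum_eq_zero fun q hq => ?_
        rw [hxc q hq, hxc p hpc, add_zero, mul_zero]
      rw [e1, e2, add_zero]
      exact cls hXs hX4 hp2 h1 h2
    · have hpX : p ∈ X.natAbs.primeFactors := Nat.mem_primeFactors.2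
        ⟨hpp, Int.natCast_dvd.1 h1', hXs.ne_zero⟩
      have e1 : ∑ q ∈ X.natAbs.primeFactors, nr q p * (x q + x p) = 0 := by
        refine sum_eq_zero fun q hq => ?_
        rw [hxX q hq, hxX p hpX, h11, mul_zero]
      have e2 : ∑ q ∈ (-c).natAbs.primeFactors, nr q p * (x q + x p) =
          ∑ q ∈ (-c).natAbs.primeFactors, nr q p := by
        refine sum_congr rfl fun q hq => ?_
        rw [hxc q hq, hxX p hpX, zero_add, mul_one]
      rw [e1, e2, zero_add]
      rw [neg_one_mul] at h1 h2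
      exact cls hcs hc4 hp2 h1 h2)
  have hbX : b = X / d ^ 2 := by rw [hXb]; field_simp
  -- either no prime or all primes divide `X`
  by_cases hne : X.natAbs.primeFactors = ∅
  · have h1 : X.natAbs = 1 := by
      rcases Nat.primeFactors_eq_empty.1 hne with h | h
      · exact absurd h hXs.ne_zero
      · exact h
    have hX1 : X = 1 := by omega
    refine ⟨1 / d, Or.inl ?_⟩
    rw [hbX, hX1]
    push_cast
    ring
  · obtain ⟨p0, hp0⟩ := Finset.nonempty_iff_ne_empty.2 hne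
    have h1 : (-c).natAbs.primeFactors = ∅ := by
      rw [Finset.eq_empty_iff_forall_notMem]
      intro q hq
      have h3 := hK p0 (by rw [hpf]; exact mem_union_left _ hp0) q
        (by rw [hpf]; exact mem_union_right _ hq)
      rw [hxX p0 hp0, hxc q hq] at h3
      exact one_ne_zero h3
    have h2 : (-c).natAbs = 1 := by
      rcases Nat.primeFactors_eq_empty.1 h1 with h | h
      · exact absurd h hcs.ne_zero
      · exact h
    have hc1 : c = -1 := by omega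
    have hX1 : X = -n := by
      rw [hc1] at hXc
      omega
    refine ⟨1 / d, Or.inr ?_⟩
    rw [hbX, hX1]
    push_cast
    ring

/-- **the two Selmer groups give rank zero and no elements of order two in Sha** -/
theorem shaF (hn : Squarefree n) (h60 : n % 60 = 23 ∨ n % 60 = 47) (hQ : Qc n)
    {W : WeierstrassCurve ℚ} (hT : IsT W ((34 * n : ℤ) : ℚ) ((225 * n ^ 2 : ℤ) : ℚ)) :
    Module.finrank ℤ (MP W) = 0 ∧
      ∀ (k : ℕ) (x : Pool.Agent.TH841.NF.D.Sha W), 2 ^ k • x = 0 → x = 0 := by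
  have hn0 : (n : ℚ) ≠ 0 := by exact_mod_cast hn.ne_zero
  have r4 : -(n : ℚ) ≠ 0 := neg_ne_zero.2 hn0
  let U : Set (ℚˣ ⧸ Sq ℚ) := {cl 1 one_ne_zero, cl (-(n : ℚ)) r4}
  let V : Set (ℚˣ ⧸ Sq ℚ) := {cl 1 one_ne_zero, cl (n : ℚ) hn0}
  have hUf : U.Finite := Set.toFinite U
  have hVf : V.Finite := Set.toFinite V
  have hfin : Finite U := hUf.to_subtype
  have hfin' : Finite V := hVf.to_subtype
  have hU2 : Nat.card U ≤ 2 := by
    have h1 : U.ncard ≤ 2 := by
      refine (Set.ncard_insert_le _ _).trans ?_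
      rw [Set.ncard_singleton]
    exact h1
  have hV2 : Nat.card V ≤ 2 := by
    have h1 : V.ncard ≤ 2 := by
      refine (Set.ncard_insert_le _ _).trans ?_
      rw [Set.ncard_singleton]
    exact h1
  have H1 : ∀ b : ℚˣ, LL1 ((34 * n : ℤ) : ℚ) ((225 * n ^ 2 : ℤ) : ℚ) (b : ℚ) →
      (b : ℚˣ ⧸ Sq ℚ) ∈ U := by
    intro b hb
    obtain ⟨c, hc⟩ := sel1 hn h60 hQ b.ne_zero hb
    rcases hc with hc | hc
    · exact Or.inl (cl_of _ (by rw [one_mul]; exact hc))
    · exact Or.inr (cl_of _ hc)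
  have H2 : ∀ b : ℚˣ, LL2 ((34 * n : ℤ) : ℚ) ((225 * n ^ 2 : ℤ) : ℚ) (b : ℚ) →
      (b : ℚˣ ⧸ Sq ℚ) ∈ V := by
    intro b hb
    obtain ⟨c, hc⟩ := sel2 hn h60 hQ b.ne_zero hb
    rcases hc with hc | hc
    · exact Or.inl (cl_of _ (by rw [one_mul]; exact hc))
    · exact Or.inr (cl_of _ hc)
  obtain ⟨hf, hc⟩ := Zc_card hT (U := U) (V := V) (Or.inl one_cl) H1 H2
  exact end_of hT hf (hc.trans (by nlinarith))

end

end Run7.h424.DC
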