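import Pool.Agent.Run7.h424.DC.To
import Pool.Agent.Run7.h424.DC.Sl

/-!
# The converse for `y² = x (x + 9 n) (x + 25 n)`
-/

set_option autoImplicit false

open NumberField IsDedekindDomain

namespace Run7.h424.DC

open Finset
open Pool.Agent.Y698.SG.Cv (LocI WF)
open Pool.Agent.TH841.NF.D (Sha)
open Pool.Agent.N969.P15 (Qc)
open Run7.h843.Desc Run7.h843.Sha

/-- the classes at `2` -/
theorem loc2 {n d : ℤ} (hn : n % 4 = 3) (hd : d % 2 = 1) : LocI ℚ_[2] (34 * n) (225 * n ^ 2) d := by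
  have hn0 : n ≠ 0 := by omega
  have hd0 : d ≠ 0 := by omega
  have hnp : (n : ℚ_[2]) ≠ 0 := by exact_mod_cast hn0
  have hdp : (d : ℚ_[2]) ≠ 0 := by exact_mod_cast hd0
  have hb : (225 * n ^ 2 : ℤ) ≠ 0 := mul_ne_zero (by norm_num) (pow_ne_zero 2 hn0)
  have hab : (34 * n : ℤ) ^ 2 - 4 * (225 * n ^ 2) ≠ 0 := by
    have : (34 * n : ℤ) ^ 2 - 4 * (225 * n ^ 2) = 256 * n ^ 2 := by ring
    rw [this]
    exact mul_ne_zero (by norm_num) (pow_ne_zero 2 hn0)
  obtain ⟨lq1, -⟩ := Pool.Agent.Y971.SG.Lq.t_LQ (34 * n) (225 * n ^ 2) d hb hab hd0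
  -- the square `(4 - 15 n) (n + 4)`
  have h1 : ((4 - 15 * n) * (n + 4)) % 8 = 1 := by
    have : n % 8 = 3 ∨ n % 8 = 7 := by omega
    rcases this with h | h
    · obtain ⟨k, hk⟩ : ∃ k, n = 8 * k + 3 := ⟨n / 8, by omega⟩
      rw [hk]
      ring_nf
      omega
    · obtain ⟨k, hk⟩ : ∃ k, n = 8 * k + 7 := ⟨n / 8, by omega⟩
      rw [hk]
      ring_nf
      omega
  obtain ⟨t, ht⟩ := Pool.Agent.Y971.SG.Lq.padic_sq2 h1
  have h8 : d % 8 = 1 ∨ (n * d) % 8 = 1 ∨ ((n + 4) * d) % 8 = 1 ∨ (n * (4 - 15 * n) * d) % 8 = 1 := by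
    have a1 : n % 8 = 3 ∨ n % 8 = 7 := by omega
    have a2 : d % 8 = 1 ∨ d % 8 = 3 ∨ d % 8 = 5 ∨ d % 8 = 7 := by omega
    have e1 : (n * d) % 8 = ((n % 8) * (d % 8)) % 8 := Int.mul_emod n d 8
    have e2 : ((n + 4) * d) % 8 = (((n % 8 + 4) % 8) * (d % 8)) % 8 := by
      rw [Int.mul_emod, Int.add_emod]
      norm_num
    have e3 : (n * (4 - 15 * n) * d) % 8 = (((n % 8) * ((4 - 15 * (n % 8)) % 8)) % 8 * (d % 8)) % 8 := by
      rw [Int.mul_emod, Int.mul_emod n, Int.sub_emod 4 (15 * n), Int.mul_emod 15 n]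
      rw [Int.sub_emod 4 (15 * (n % 8)), Int.mul_emod 15 (n % 8), Int.emod_emod]
    rw [e1, e2, e3]
    rcases a1 with a1 | a1 <;> rcases a2 with a2 | a2 | a2 | a2 <;> rw [a1, a2] <;> decide
  rcases h8 with h8 | h8 | h8 | h8
  · exact lq1 2 (Or.inl (Pool.Agent.Y971.SG.Lq.padic_sq2 h8))
  · obtain ⟨s, hs⟩ := Pool.Agent.Y971.SG.Lq.padic_sq2 h8
    refine ⟨4 * n, 0, 2 * s / d, mul_ne_zero (by norm_num) hnp, ?_, ?_⟩
    · push_cast
      ring
    · push_cast at hs
      field_simp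
      linear_combination 4 * hs
  · obtain ⟨s, hs⟩ := Pool.Agent.Y971.SG.Lq.padic_sq2 h8
    have h4 : ((n + 4 : ℤ) : ℚ_[2]) ≠ 0 := by
      have : n + 4 ≠ 0 := by omega
      exact_mod_cast this
    push_cast at h4 hs ht
    refine ⟨4 * (n + 4), 16 * t, 2 * s / d, mul_ne_zero (by norm_num) h4, ?_, ?_⟩
    · push_cast
      linear_combination (-256) * ht
    · field_simp
      linear_combination 4 * hs
  · obtain ⟨s, hs⟩ := Pool.Agent.Y971.SG.Lq.padic_sq2 h8
    have h4 : ((4 - 15 * n : ℤ) : ℚ_[2]) ≠ 0 := by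
      have : 4 - 15 * n ≠ 0 := by omega
      exact_mod_cast this
    push_cast at h4 hs ht
    refine ⟨n * (4 - 15 * n), 15 * n ^ 2 * t, s / d, mul_ne_zero hnp h4, ?_, ?_⟩
    · push_cast
      linear_combination (-225 * (n : ℚ_[2]) ^ 4) * ht
    · field_simp
      linear_combination hs

section

variable {n : ℕ}

/-- the classes at `3` and `5` -/
theorem loc35 {p : ℕ} [hp : Fact p.Prime] (hp2 : p ≠ 2) (hn0 : n ≠ 0) (hpn : ¬ p ∣ n)
    (hns : ¬ IsSquare ((n : ℤ) : ZMod p)) {d : ℤ} (hpd : ¬ (p : ℤ) ∣ d) :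
    LocI ℚ_[p] (34 * n) (225 * n ^ 2) d := by
  classical
  have hpp := hp.out
  have hnz : (n : ℤ) ≠ 0 := by exact_mod_cast hn0
  have hd0 : d ≠ 0 := by
    rintro rfl
    exact hpd (dvd_zero _)
  have hnp : (n : ℚ_[p]) ≠ 0 := by exact_mod_cast hn0
  have hdp : (d : ℚ_[p]) ≠ 0 := by exact_mod_cast hd0
  have hb : (225 * (n : ℤ) ^ 2 : ℤ) ≠ 0 := mul_ne_zero (by norm_num) (pow_ne_zero 2 hnz)
  have hab : (34 * (n : ℤ) : ℤ) ^ 2 - 4 * (225 * n ^ 2) ≠ 0 := by
    have : (34 * (n : ℤ) : ℤ) ^ 2 - 4 * (225 * n ^ 2) = 256 * n ^ 2 := by ring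
    rw [this]
    exact mul_ne_zero (by norm_num) (pow_ne_zero 2 hnz)
  obtain ⟨lq1, -⟩ := Pool.Agent.Y971.SG.Lq.t_LQ (34 * n) (225 * n ^ 2) d hb hab hd0
  by_cases hs : IsSquare (d : ZMod p)
  · exact lq1 p (Or.inl (Pool.Agent.Y971.SG.Lq.t_SQ p d hp2 hpd hs))
  · have hpnz : ¬ (p : ℤ) ∣ (n : ℤ) := by exact_mod_cast hpn
    have hnd : ¬ (p : ℤ) ∣ (n : ℤ) * d := by
      intro h
      rcases (Int.Prime.dvd_mul' hpp h) with h | h
      · exact hpnz h
      · exact hpd h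
    have hne : (((n : ℤ) * d : ℤ) : ZMod p) ≠ 0 := cast_ne.2 hnd
    have h6 : IsSquare (((n : ℤ) * d : ℤ) : ZMod p) := by
      rw [← quadraticChar_one_iff_isSquare hne, Int.cast_mul, map_mul,
        quadraticChar_neg_one_iff_not_isSquare.2 hns,
        quadraticChar_neg_one_iff_not_isSquare.2 hs]
      norm_num
    obtain ⟨s, hs⟩ := Pool.Agent.Y971.SG.Lq.t_SQ p _ hp2 hnd h6
    refine ⟨4 * n, 0, 2 * s / d, mul_ne_zero (by norm_num) hnp, ?_, ?_⟩
    · push_cast
      ring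
    · push_cast at hs
      field_simp
      linear_combination 4 * hs

theorem res' (h60 : n % 60 = 23 ∨ n % 60 = 47) :
    ¬ IsSquare ((n : ℤ) : ZMod 3) ∧ ¬ IsSquare ((n : ℤ) : ZMod 5) := by
  obtain ⟨h1, h2⟩ := res h60
  constructor
  · rintro ⟨s, hs⟩
    apply h1
    refine ⟨5 * s, ?_⟩
    push_cast at hs ⊢
    linear_combination 25 * hs
  · rintro ⟨s, hs⟩
    apply h2
    refine ⟨3 * s, ?_⟩
    push_cast at hs ⊢
    linear_combination 9 * hs

/-- **the converse** -/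
theorem convF (hn : Squarefree n) (h60 : n % 60 = 23 ∨ n % 60 = 47)
    (hf : Finite (WF ℚ (34 * n) (225 * n ^ 2)).toAffine.Point)
    (hs : ∀ x : Sha (WF ℚ (34 * n) (225 * n ^ 2)), x + x = 0 → x = 0) : Qc n := by
  intro b c hbc hb hc
  by_contra hcon
  push Not at hcon
  obtain ⟨hb1, hc1⟩ := hcon
  have hn0 : n ≠ 0 := hn.ne_zero
  have hnz : (n : ℤ) ≠ 0 := by exact_mod_cast hn0
  have hsq : Squarefree (b * c) := hbc ▸ hn
  have hbs : Squarefree b := hsq.of_mul_left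
  have hcs : Squarefree c := hsq.of_mul_right
  have hco : Nat.Coprime b c := (Nat.squarefree_mul_iff.1 hsq).1
  have hbz : (b : ℤ) ≠ 0 := by exact_mod_cast hbs.ne_zero
  have hb0 : (225 * (n : ℤ) ^ 2 : ℤ) ≠ 0 := mul_ne_zero (by norm_num) (pow_ne_zero 2 hnz)
  have hab : (34 * (n : ℤ) : ℤ) ^ 2 - 4 * (225 * n ^ 2) ≠ 0 := by
    have : (34 * (n : ℤ) : ℤ) ^ 2 - 4 * (225 * n ^ 2) = 256 * n ^ 2 := by ring
    rw [this]
    exact mul_ne_zero (by norm_num) (pow_ne_zero 2 hnz)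
  obtain ⟨lq1, lq2⟩ := Pool.Agent.Y971.SG.Lq.t_LQ (34 * n) (225 * n ^ 2) b hb0 hab hbz
  obtain ⟨r3, r5⟩ := res' h60
  have hodd : ∀ p ∈ n.primeFactors, p.Prime ∧ p ≠ 2 ∧ p % 2 = 1 := fun p hp =>
    odd_pf (n := n) (by omega) hp
  have hb2 : b % 2 = 1 := by
    rcases Nat.mod_two_eq_zero_or_one b with h | h
    · exfalso
      have : n % 2 = 0 := by rw [← hbc, Nat.mul_mod, h, zero_mul]; rfl
      omega
    · exact h
  have hloc : ∀ (p : ℕ) [Fact p.Prime], LocI ℚ_[p] (34 * n) (225 * n ^ 2) b := by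
    intro p hp
    have hpp : p.Prime := hp.out
    by_cases hpn : p ∣ n
    · have hpf : p ∈ n.primeFactors := Nat.mem_primeFactors.2 ⟨hpp, hpn, hn0⟩
      obtain ⟨-, hp2, -⟩ := hodd p hpf
      by_cases hpb : p ∣ b
      · have hpc : ¬ p ∣ c := fun h => (Nat.Prime.one_lt hpp).ne'
          (Nat.eq_one_of_dvd_coprimes hco hpb h)
        have h1 := hc p (Nat.mem_primeFactors.2 ⟨hpp, hpb, hbs.ne_zero⟩)
        rw [jac_iff hpc] at h1
        obtain ⟨s, hs⟩ := Pool.Agent.Y971.SG.Lq.t_SQ p (c : ℤ) hp2 (by exact_mod_cast hpc) h1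
        have hnp : (n : ℚ_[p]) ≠ 0 := by exact_mod_cast hn0
        refine ⟨4 * n, 0, 2 * s, mul_ne_zero (by norm_num) hnp, ?_, ?_⟩
        · push_cast
          ring
        · have e : (n : ℚ_[p]) = b * c := by
            rw [← hbc]
            push_cast
            rfl
          push_cast at hs ⊢
          rw [e]
          linear_combination 4 * (b : ℚ_[p]) * hs
      · have hpc : p ∣ c := by
          rw [← hbc] at hpn
          exact (hpp.dvd_mul.1 hpn).resolve_left hpb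
        have h1 := hb p (Nat.mem_primeFactors.2 ⟨hpp, hpc, hcs.ne_zero⟩)
        rw [jac_iff hpb] at h1
        exact lq1 p (Or.inl (Pool.Agent.Y971.SG.Lq.t_SQ p (b : ℤ) hp2 (by exact_mod_cast hpb) h1))
    · have hpb : ¬ (p : ℤ) ∣ b := by
        intro h
        have h' : p ∣ b := by exact_mod_cast h
        exact hpn (hbc ▸ h'.mul_right c)
      by_cases hp2 : p = 2
      · subst hp2
        exact loc2 (by omega) (by omega)
      · by_cases hp3 : p = 3
        · subst hp3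
          exact loc35 hp2 hn0 hpn r3 hpb
        · by_cases hp5 : p = 5
          · subst hp5
            exact loc35 hp2 hn0 hpn r5 hpb
          · refine good_p hb0 hab hbz p hp2 ?_ ?_ hpb
            · have h5 := nd_prod (n := n) hpp (A := 225) (by
                intro h6
                have h7 : p ∣ 3 ^ 2 * 5 ^ 2 := by
                  norm_num
                  exact h6
                rcases hpp.dvd_mul.1 h7 with h8 | h8
                · exact npd hpp Nat.prime_three hp3 2 h8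
                · exact npd hpp Nat.prime_five hp5 2 h8) hpn
              exact_mod_cast h5
            · have e : (34 * (n : ℤ) : ℤ) ^ 2 - 4 * (225 * n ^ 2) = 256 * n ^ 2 := by ring
              rw [e]
              have h5 := nd_prod (n := n) hpp (A := 256) (by
                have := npd hpp Nat.prime_two hp2 8
                norm_num at this
                exact this) hpn
              exact_mod_cast h5
  have hreal : LocI ℝ (34 * n) (225 * n ^ 2) b :=
    lq2 (by exact_mod_cast Nat.pos_of_ne_zero hbs.ne_zero)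
  have hnsq : ∀ {m : ℕ}, Squarefree m → m ≠ 1 → ¬ IsSquare (m : ℚ) := by
    intro m hm hm1 h
    have h5 : IsSquare ((m : ℤ) : ℚ) := by rwa [Int.cast_natCast]
    rw [Rat.isSquare_intCast_iff] at h5
    obtain ⟨r, hr⟩ := h5
    have h6 : m = r.natAbs * r.natAbs := by
      have := congrArg Int.natAbs hr
      rw [Int.natAbs_mul] at this
      exact this
    have h7 := Nat.isUnit_iff.1 (hm r.natAbs ⟨1, by rw [mul_one]; exact h6⟩)
    rw [h7] at h6
    exact hm1 h6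
  have n1 : ¬ IsSquare ((b : ℤ) : ℚ) := by
    rw [Int.cast_natCast]
    exact hnsq hbs hb1
  have hnq : (n : ℚ) ≠ 0 := by exact_mod_cast hn0
  have n2 : ¬ IsSquare (((b : ℤ) : ℚ) * (((34 * n : ℤ) : ℚ) ^ 2 - 4 * ((225 * n ^ 2 : ℤ) : ℚ))) := by
    rintro ⟨s, hs⟩
    apply n1
    refine ⟨s / (16 * n), ?_⟩
    push_cast at hs ⊢
    field_simp
    linear_combination hs
  have n3 : ¬ LocI ℚ (34 * n) (225 * n ^ 2) b := by
    intro h
    rcases torF hn0 (hnsq hn (by omega)) hf h with h | h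
    · exact n1 h
    · obtain ⟨s, hs⟩ := h
      apply hnsq hcs hc1
      have hbq : (b : ℚ) ≠ 0 := by exact_mod_cast hbs.ne_zero
      have e : (n : ℚ) = b * c := by
        rw [← hbc]
        push_cast
        rfl
      refine ⟨s / b, ?_⟩
      rw [e] at hs
      push_cast at hs
      field_simp
      linear_combination hs
  obtain ⟨y, hy0, hy2⟩ := exists_two' hb0 hab hbz hloc hreal n1 n2 n3
  exact hy0 (hs y hy2)

end

end Run7.h424.DC
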