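import Mathlib
import Pool.Agent.Y79.SG.Coc
import Pool.Agent.Y79.SG.Lot
import Pool.Agent.Y945.SG.Cob
import Pool.Agent.Y971.SG.Lq
import Pool.Agent.Y587.SG.LG
import Pool.Agent.Y542.SGT.Tor

/-!
# Elements of order two in Sha over `ℚ` (light version of `Run7.h843.V1`, `Run7.h843.V4`)
-/

set_option autoImplicit false

open NumberField IsDedekindDomain

namespace Run7.h424.DC

open Pool.Agent.Y698.SG.Cv (LocI WF coc)
open Pool.Agent.TH841.NF.D (Sha shaCoc)
open Pool.Agent.TH841.SH.D (Pt act Coch IsCoc IsCob LocTriv cob cob_zero Gal)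

theorem loc_map {L L' : Type} [Field L] [Field L'] (φ : L →+* L') {a b d : ℤ} (h : LocI L a b d) :
    LocI L' a b d := by
  obtain ⟨X, Y, r, h1, h2, h3⟩ := h
  refine ⟨φ X, φ Y, φ r, (map_ne_zero φ).2 h1, ?_, ?_⟩
  · have h4 := congrArg φ h2
    simp only [map_pow, map_add, map_sub, map_mul, map_ofNat, map_intCast] at h4
    exact h4
  · have h4 := congrArg φ h3
    simp only [map_pow, map_mul, map_intCast] at h4
    exact h4

/-- the primes of good reduction -/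
theorem good_p {a b d : ℤ} (hb : b ≠ 0) (hab : a ^ 2 - 4 * b ≠ 0) (hd0 : d ≠ 0) (p : ℕ)
    [Fact p.Prime] (h2 : p ≠ 2) (h : ¬ (p : ℤ) ∣ b) (h' : ¬ (p : ℤ) ∣ a ^ 2 - 4 * b)
    (hd : ¬ (p : ℤ) ∣ d) : LocI ℚ_[p] a b d := by
  have hlq := (Pool.Agent.Y971.SG.Lq.t_LQ a b d hb hab hd0).1 p
  have hbz : (b : ZMod p) ≠ 0 := fun h0 => h ((ZMod.intCast_zmod_eq_zero_iff_dvd b p).1 h0)
  have hdz : (d : ZMod p) ≠ 0 := fun h0 => hd ((ZMod.intCast_zmod_eq_zero_iff_dvd d p).1 h0)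
  have hcz : ((a ^ 2 - 4 * b : ℤ) : ZMod p) ≠ 0 := fun h0 =>
    h' ((ZMod.intCast_zmod_eq_zero_iff_dvd _ p).1 h0)
  by_cases h3 : IsSquare (d : ZMod p)
  · exact hlq (Or.inl (Pool.Agent.Y971.SG.Lq.t_SQ p d h2 hd h3))
  · by_cases h4 : IsSquare ((a ^ 2 - 4 * b : ℤ) : ZMod p)
    · refine Pool.Agent.Y587.SG.aux p a b d h2 hbz ?_ hd0 ?_
      · have := (quadraticChar_one_iff_isSquare hcz).2 h4
        push_cast at this
        exact this
      · exact quadraticChar_neg_one_iff_not_isSquare.2 h3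
    · have h5 : IsSquare ((d * (a ^ 2 - 4 * b) : ℤ) : ZMod p) := by
        have e1 := quadraticChar_neg_one_iff_not_isSquare.2 h3
        have e2 := quadraticChar_neg_one_iff_not_isSquare.2 h4
        have hne : ((d * (a ^ 2 - 4 * b) : ℤ) : ZMod p) ≠ 0 := by
          rw [Int.cast_mul]
          exact mul_ne_zero hdz hcz
        rw [← quadraticChar_one_iff_isSquare hne, Int.cast_mul, map_mul, e1, e2]
        norm_num
      have h6 : ¬ (p : ℤ) ∣ d * (a ^ 2 - 4 * b) := by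
        intro h7
        rcases (Int.Prime.dvd_mul' (Fact.out : p.Prime) h7) with h8 | h8
        · exact hd h8
        · exact h' h8
      have h7 := Pool.Agent.Y971.SG.Lq.t_SQ p _ h2 h6 h5
      refine hlq (Or.inr ?_)
      push_cast at h7
      exact h7

/-- local conditions at the finite places of `ℚ` -/
theorem all_v {a b d : ℤ} (h : ∀ (p : ℕ) [Fact p.Prime], LocI ℚ_[p] a b d)
    (v : HeightOneSpectrum (𝓞 ℚ)) : LocI (v.adicCompletion ℚ) a b d := by
  have : Fact ((Rat.HeightOneSpectrum.primesEquiv v : Nat.Primes) : ℕ).Prime :=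
    ⟨(Rat.HeightOneSpectrum.primesEquiv v).2⟩
  exact loc_map
    ((Rat.HeightOneSpectrum.adicCompletion.padicEquiv v).symm.toAlgEquiv.toRingEquiv.toRingHom)
    (h _)

/-- an element of order two, general form -/
theorem exists_two' {a b d : ℤ} (hb : b ≠ 0) (hab : a ^ 2 - 4 * b ≠ 0) (hd : d ≠ 0)
    (hl : ∀ (p : ℕ) [Fact p.Prime], LocI ℚ_[p] a b d) (hr : LocI ℝ a b d)
    (n1 : ¬ IsSquare (d : ℚ)) (n2 : ¬ IsSquare ((d : ℚ) * ((a : ℚ) ^ 2 - 4 * b)))
    (n3 : ¬ LocI ℚ a b d) : ∃ x : Sha (WF ℚ a b), x ≠ 0 ∧ x + x = 0 := by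
  have hc : coc ℚ hb d ∈ shaCoc (WF ℚ a b) := by
    refine ⟨(Pool.Agent.Y79.SG.t_COC ℚ a b hb d).1, fun v => ?_, fun v => ?_⟩
    · exact Pool.Agent.Y79.SG.Lot.t_LOT ℚ a b hb d hab hd _ (all_v (fun p _ => hl p) v)
    · rcases v.isReal_or_isComplex with h | h
      · exact Pool.Agent.Y79.SG.Lot.t_LOT ℚ a b hb d hab hd _
          (loc_map (InfinitePlace.Completion.ringEquivRealOfIsReal h).symm.toRingHom hr)
      · exact Pool.Agent.Y79.SG.Lot.t_LOT ℚ a b hb d hab hd _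
          (loc_map (InfinitePlace.Completion.ringEquivComplexOfIsComplex h).symm.toRingHom
            (loc_map (algebraMap ℝ ℂ) hr))
  let N : AddSubgroup (shaCoc (WF ℚ a b)) := (cob (WF ℚ a b)).addSubgroupOf (shaCoc (WF ℚ a b))
  let y : shaCoc (WF ℚ a b) := ⟨coc ℚ hb d, hc⟩
  refine ⟨(QuotientAddGroup.mk y : shaCoc (WF ℚ a b) ⧸ N), ?_, ?_⟩
  · intro h
    have h0 : (QuotientAddGroup.mk y : shaCoc (WF ℚ a b) ⧸ N) = 0 := h
    rw [QuotientAddGroup.eq_zero_iff, AddSubgroup.mem_addSubgroupOf] at h0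
    rcases Pool.Agent.Y945.SG.t_COB ℚ a b hb d hab hd h0 with h | h | h
    · exact n1 h
    · exact n2 h
    · exact n3 h
  · have h5 : (QuotientAddGroup.mk (y + y) : shaCoc (WF ℚ a b) ⧸ N) = 0 := by
      rw [QuotientAddGroup.eq_zero_iff, AddSubgroup.mem_addSubgroupOf]
      have h6 : ((y + y : shaCoc (WF ℚ a b)) : Coch (WF ℚ a b)) = 0 :=
        (Pool.Agent.Y79.SG.t_COC ℚ a b hb d).2
      rw [h6]
      exact cob_zero _
    exact h5

end Run7.h424.DC
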