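import Pool.Agent.Run7.h424.DC.Ex

/-!
# The classes of the rational points of `y² = x (x - 4 n) (x - 64 n)`
-/

set_option autoImplicit false

open NumberField IsDedekindDomain WeierstrassCurve

namespace Run7.h424.DC

open Pool.Agent.Y698.SG.Cv (LocI WF)
open Pool.Agent.Y668
open Pool.Agent.Y542.SGT (ns_of fin_iso)

/-- a finite abelian group without elements of order four -/
theorem grp {G : Type*} [AddCommGroup G] [Finite G]
    (h4 : ∀ R : G, (R + R) + (R + R) = 0 → R + R = 0) (P : G) :
    ∃ T Q : G, T + T = 0 ∧ P = T + (Q + Q) := by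
  have hN : Nat.card G ≠ 0 := Nat.card_pos.ne'
  obtain ⟨k, m, hm, hN2⟩ := Nat.exists_eq_two_pow_mul_odd hN
  have h1 : 2 ^ k • (m • P) = 0 := by
    rw [smul_smul, ← hN2]
    exact card_nsmul_eq_zero'
  have h2 : ∀ (k : ℕ) (R : G), 2 ^ k • R = 0 → R + R = 0 := by
    intro k
    induction k with
    | zero =>
      intro R hR
      rw [pow_zero, one_smul] at hR
      rw [hR, add_zero]
    | succ k ih =>
      intro R hR
      refine h4 R (ih (R + R) ?_)
      rw [← two_smul ℕ R, smul_smul, ← pow_succ]
      exact hR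
  obtain ⟨j, hj⟩ := hm
  refine ⟨m • P, -(j • P), h2 k _ h1, ?_⟩
  rw [hj, add_smul, mul_smul, two_smul, one_smul]
  abel

/-- a point `Q` with `2 Q = (0, 0)` on `y² = x³ + A x² + C x` -/
theorem dbl0 {F : Type} [Field F] [CharZero F] [DecidableEq F] {A C : F} (hC : C ≠ 0)
    (hD : A ^ 2 - 4 * C ≠ 0) (Q : (Wt A C).toAffine.Point)
    (h : Q + Q = Affine.Point.some 0 0 (ns_of (x := 0) (y := 0) hC hD (by ring))) :
    ∃ x y : F, y ^ 2 = x ^ 3 + A * x ^ 2 + C * x ∧ x ^ 2 = C := by
  cases Q with
  | zero =>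
    exfalso
    have h1 : (0 : (Wt A C).toAffine.Point) + 0 = 0 := add_zero 0
    have h2 : (Affine.Point.zero : (Wt A C).toAffine.Point) = 0 := rfl
    rw [h2, h1] at h
    exact Affine.Point.some_ne_zero _ h.symm
  | some x y hn =>
    have he := Wt_eqn.mp hn.1
    by_cases hy : y = (Wt A C).toAffine.negY x y
    · exfalso
      rw [Affine.Point.add_self_of_Y_eq hy] at h
      exact Affine.Point.some_ne_zero _ h.symm
    · rw [Affine.Point.add_self_of_Y_ne hy] at h
      have hy0 : y ≠ 0 := by
        rintro rfl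
        apply hy
        simp [Affine.negY, Wt]
      have h1 := (Affine.Point.some.injEq ..).mp h
      have hx := h1.1
      rw [Affine.slope_of_Y_ne rfl hy] at hx
      simp only [Affine.addX, Affine.negY, Wt] at hx
      refine ⟨x, y, he, ?_⟩
      have h2y : (2 : F) * y ≠ 0 := mul_ne_zero two_ne_zero hy0
      have e1 : y - (-y - 0 * x - 0) = 2 * y := by ring
      rw [e1] at hx
      have h3 : (3 * x ^ 2 + 2 * A * x + C) ^ 2 = (A + 2 * x) * (4 * y ^ 2) := by
        field_simp at hx
        linear_combination hx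
      have h4 : (x ^ 2 - C) ^ 2 = 0 := by
        rw [he] at h3
        linear_combination h3
      have h5 := pow_eq_zero_iff (two_ne_zero) |>.1 h4
      linear_combination h5

/-- the classes of the rational points of the isogenous curve -/
theorem torF {n : ℕ} (hn0 : n ≠ 0) (hn : ¬ IsSquare (n : ℚ)) {d : ℤ}
    (hfin : Finite (WF ℚ (34 * n) (225 * n ^ 2)).toAffine.Point)
    (hloc : LocI ℚ (34 * n) (225 * n ^ 2) d) : IsSquare (d : ℚ) ∨ IsSquare ((d : ℚ) * n) := by
  classical
  obtain ⟨X, Y, r, hX, hY, hXd⟩ := hloc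
  have hNq : (0 : ℚ) < n := by exact_mod_cast Nat.pos_of_ne_zero hn0
  set A : ℚ := -68 * (n : ℚ) with hAdef
  set C : ℚ := 256 * (n : ℚ) ^ 2 with hCdef
  have hC : C ≠ 0 := by positivity
  have hD : A ^ 2 - 4 * C ≠ 0 := by
    have : A ^ 2 - 4 * C = 3600 * (n : ℚ) ^ 2 := by
      rw [hAdef, hCdef]
      ring
    rw [this]
    positivity
  have hb' : ((225 * (n : ℤ) ^ 2 : ℤ) : ℚ) ≠ 0 := by
    push_cast
    positivity
  have e1 : -2 * (((34 * (n : ℤ) : ℤ)) : ℚ) = A := by rw [hAdef]; push_cast; ring
  have e2 : (((34 * (n : ℤ) : ℤ) : ℚ)) ^ 2 - 4 * ((225 * (n : ℤ) ^ 2 : ℤ) : ℚ) = C := by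
    rw [hCdef]
    push_cast
    ring
  have hc' : (((34 * (n : ℤ) : ℤ) : ℚ)) ^ 2 - 4 * ((225 * (n : ℤ) ^ 2 : ℤ) : ℚ) ≠ 0 := by
    rw [e2]
    exact hC
  have hf0 := fin_iso hb' hc' hfin
  rw [e1, e2] at hf0
  have hY' : Y ^ 2 = X ^ 3 + A * X ^ 2 + C * X := by
    rw [hY, hCdef, hAdef]
    push_cast
    ring
  have hns := ns_of hC hD hY'
  have hr : r ≠ 0 := by
    rintro rfl
    apply hX
    rw [hXd]; ring
  have hal : al A C (Affine.Point.some X Y hns) = X := by
    rw [al_some]
    simp [hX]
  have n4 : ∀ s : ℚ, 4 * (n : ℚ) ≠ s * s := by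
    intro s hs
    apply hn
    refine ⟨s / 2, ?_⟩
    linear_combination hs / 4
  have n64 : ∀ s : ℚ, 64 * (n : ℚ) ≠ s * s := by
    intro s hs
    apply hn
    refine ⟨s / 8, ?_⟩
    linear_combination hs / 64
  -- the points of order two
  have htors : ∀ T : (Wt A C).toAffine.Point, T + T = 0 →
      T = 0 ∨ T = Affine.Point.some 0 0 (ns_of (x := 0) (y := 0) hC hD (by ring)) ∨
        al A C T = 4 * n ∨ al A C T = 64 * n := by
    intro T hT
    cases T with
    | zero => exact Or.inl rfl
    | some x y hxy =>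
      right
      have h1 : (Affine.Point.some x y hxy : (Wt A C).toAffine.Point) =
          -Affine.Point.some x y hxy := eq_neg_of_add_eq_zero_left hT
      rw [Affine.Point.neg_some] at h1
      have h2 : y = (Wt A C).toAffine.negY x y := by
        simpa using h1
      have h3 : y = 0 := by
        simp only [Affine.negY, Wt] at h2
        have h2' : (2 : ℚ) * y = 0 := by linear_combination h2
        exact (mul_eq_zero.1 h2').resolve_left two_ne_zero
      subst h3
      have h4 := Wt_eqn.mp hxy.1
      have h5 : x * ((x - 4 * n) * (x - 64 * n)) = 0 := by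
        rw [hAdef, hCdef] at h4
        linear_combination -h4
      rcases mul_eq_zero.1 h5 with h6 | h6
      · subst h6
        left
        rfl
      · right
        rw [al_some]
        rcases mul_eq_zero.1 h6 with h7 | h7
        · left
          have h8 : x = 4 * n := by linear_combination h7
          have h9 : x ≠ 0 := by rw [h8]; positivity
          rw [if_neg h9, h8]
        · right
          have h8 : x = 64 * n := by linear_combination h7
          have h9 : x ≠ 0 := by rw [h8]; positivity
          rw [if_neg h9, h8]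
  have hsq2 : ∀ R : (Wt A C).toAffine.Point, ∃ s : ℚ, s ≠ 0 ∧ al A C (R + R) = s * s := by
    intro R
    obtain ⟨s, hs⟩ := al_add (two_ne_zero (α := ℚ)) R R
    have hα : al A C R ≠ 0 := al_ne hC R
    refine ⟨s / al A C R, ?_, ?_⟩
    · apply div_ne_zero _ hα
      rintro rfl
      rw [zero_mul] at hs
      exact mul_ne_zero (al_ne hC (R + R)) (mul_ne_zero hα hα) hs
    · field_simp
      linear_combination hs
  have h4 : ∀ R : (Wt A C).toAffine.Point, (R + R) + (R + R) = 0 → R + R = 0 := by
    intro R hR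
    obtain ⟨s, -, hs⟩ := hsq2 R
    rcases htors (R + R) hR with h | h | h | h
    · exact h
    · exfalso
      obtain ⟨x, y, hxy, hx2⟩ := dbl0 hC hD R h
      have h3 : (x - 16 * n) * (x + 16 * n) = 0 := by
        rw [hCdef] at hx2
        linear_combination hx2
      have h5 : (0 : ℚ) < (n : ℚ) ^ 3 := by positivity
      rcases mul_eq_zero.1 h3 with h4 | h4
      · have hx : x = 16 * n := by linear_combination h4
        rw [hx, hCdef, hAdef] at hxy
        nlinarith [sq_nonneg y]
      · have hx : x = -(16 * n) := by linear_combination h4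
        rw [hx, hCdef, hAdef] at hxy
        nlinarith [sq_nonneg y]
    · exact absurd (h.symm.trans hs) (n4 s)
    · exact absurd (h.symm.trans hs) (n64 s)
  obtain ⟨T, Q, hT, hP⟩ := grp h4 (Affine.Point.some X Y hns)
  obtain ⟨s, hs0, hs⟩ := hsq2 Q
  have h3 := al_add (two_ne_zero (α := ℚ)) T (Q + Q)
  rw [← hP, hal, hs] at h3
  obtain ⟨t, ht⟩ := h3
  -- `X * al T` is a square
  have key : ∀ a : ℚ, al A C T = a → IsSquare (X * a) := by
    rintro a rfl
    refine ⟨t / s, ?_⟩
    field_simp
    linear_combination ht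
  have e : ∀ u v : ℚ, v ≠ 0 → IsSquare (X * (u * v ^ 2)) → IsSquare ((d : ℚ) * u) := by
    rintro u v hv ⟨s, hs⟩
    refine ⟨s / (r * v), ?_⟩
    rw [hXd] at hs
    field_simp
    linear_combination hs
  rcases htors T hT with h | h | h | h
  · left
    have h5 := key 1 (by rw [h]; exact al_zero A C)
    have h6 := e 1 1 one_ne_zero (by simpa using h5)
    simpa using h6
  · left
    have h5 := key C (by rw [h, al_some]; simp)
    have h6 := e 1 (16 * n) (by positivity) (by
      have : (1 : ℚ) * (16 * n) ^ 2 = C := by rw [hCdef]; ring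
      rw [this]
      exact h5)
    simpa using h6
  · right
    refine e n 2 two_ne_zero ?_
    have : (n : ℚ) * 2 ^ 2 = 4 * n := by ring
    rw [this]
    exact key _ h
  · right
    refine e n 8 (by norm_num) ?_
    have : (n : ℚ) * 8 ^ 2 = 64 * n := by ring
    rw [this]
    exact key _ h

end Run7.h424.DC
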